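import Mathlib

/-!
# Von Neumann algebras whose unitaries are residual in the unit ball: definitions
-/

open scoped InnerProductSpace ENNReal

universe u

namespace Pool.Agent.Helper97.Resid

variable {H : Type u} [NormedAddCommGroup H] [InnerProductSpace ℂ H] [CompleteSpace H]

/-- The closed unit ball of the von Neumann algebra `M`. -/
def Ball (M : VonNeumannAlgebra H) : Type u := {x : H →L[ℂ] H // x ∈ M ∧ ‖x‖ ≤ 1}

/-- The weak-star (sigma-weak) topology on the closed unit ball of `M`: the coarsest topology
for which all functionals `x ↦ ∑ₙ ⟨η n, x (ξ n)⟩`, with `ξ` and `η` square summable sequences of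
vectors, are continuous. -/
noncomputable instance weakStar (M : VonNeumannAlgebra H) : TopologicalSpace (Ball M) :=
  ⨅ q : lp (fun _ : ℕ => H) 2 × lp (fun _ : ℕ => H) 2,
    TopologicalSpace.induced (fun x : Ball M => ∑' n, ⟪q.2 n, x.1 (q.1 n)⟫_ℂ) inferInstance

/-- Property (R): the non-unitary elements of the closed unit ball of `M` form a set of first
category for the weak-star topology. -/
def PropertyR (M : VonNeumannAlgebra H) : Prop :=
  IsMeagre {x : Ball M | ¬ (star x.1 * x.1 = 1 ∧ x.1 * star x.1 = 1)}

/-- `M` is sigma-finite (countably decomposable): every set of pairwise orthogonal nonzero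
projections of `M` is countable. -/
def SigmaFinite (M : VonNeumannAlgebra H) : Prop :=
  ∀ S : Set (H →L[ℂ] H), (∀ p ∈ S, p ∈ M ∧ IsStarProjection p ∧ p ≠ 0) →
    (∀ p ∈ S, ∀ q ∈ S, p ≠ q → p * q = 0) → S.Countable

/-- `M` has no nonzero finite-dimensional direct summand: if `z` is a central projection of `M`
for which `z M` is finite-dimensional, then `z = 0`. -/
def NoFiniteSummand (M : VonNeumannAlgebra H) : Prop :=
  ∀ z ∈ M, IsStarProjection z → (∀ x ∈ M, z * x = x * z) →
    FiniteDimensional ℂ (Submodule.span ℂ {y : H →L[ℂ] H | ∃ x ∈ M, y = z * x}) → z = 0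

end Pool.Agent.Helper97.Resid
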