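import Mathlib
import Pool.Agent.Helper97.Resid.Defs

/-!
# The weak closure of the unitaries of `M`
-/

set_option linter.unusedSectionVars false

open scoped InnerProductSpace ENNReal

universe u

namespace Pool.Agent.Helper97.Resid

variable {H : Type u} [NormedAddCommGroup H] [InnerProductSpace ℂ H] [CompleteSpace H]

/-- `x` is a weak limit of unitaries of `M` -/
def InK (M : VonNeumannAlgebra H) (x : H →L[ℂ] H) : Prop :=
  ∀ (F : Finset H) (ε : ℝ), 0 < ε → ∃ u ∈ M, star u * u = 1 ∧ u * star u = 1 ∧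
    ∀ ξ ∈ F, ∀ η ∈ F, ‖⟪η, (u - x) ξ⟫_ℂ‖ < ε

variable {M : VonNeumannAlgebra H}

lemma InK.of_unitary {u : H →L[ℂ] H} (hu : u ∈ M) (h1 : star u * u = 1) (h2 : u * star u = 1) :
    InK M u := by
  intro F ε hε
  refine ⟨u, hu, h1, h2, ?_⟩
  intro ξ _ η _
  simpa using hε

lemma InK.one : InK M 1 := InK.of_unitary (one_mem M) (by simp) (by simp)

/-- the closure property -/
lemma InK.of_close {x : H →L[ℂ] H} (h : ∀ (F : Finset H) (ε : ℝ), 0 < ε → ∃ k, InK M k ∧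
    ∀ ξ ∈ F, ∀ η ∈ F, ‖⟪η, (k - x) ξ⟫_ℂ‖ < ε) : InK M x := by
  intro F ε hε
  obtain ⟨k, hk, h1⟩ := h F (ε / 2) (half_pos hε)
  obtain ⟨u, hu, h2, h3, h4⟩ := hk F (ε / 2) (half_pos hε)
  refine ⟨u, hu, h2, h3, ?_⟩
  intro ξ hξ η hη
  have e : ⟪η, (u - x) ξ⟫_ℂ = ⟪η, (u - k) ξ⟫_ℂ + ⟪η, (k - x) ξ⟫_ℂ := by
    rw [← inner_add_right]
    congr 1
    simp
  rw [e]
  have := h1 ξ hξ η hη
  have := h4 ξ hξ η hη
  exact (norm_add_le _ _).trans_lt (by linarith)

/-- closure under norm limits -/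
lemma InK.of_norm {x : H →L[ℂ] H} (h : ∀ δ : ℝ, 0 < δ → ∃ k, InK M k ∧ ‖k - x‖ ≤ δ) : InK M x := by
  classical
  apply InK.of_close
  intro F ε hε
  -- a bound for the norms of the vectors
  set B : ℝ := ∑ ξ ∈ F, ‖ξ‖ with hB
  have hB0 : 0 ≤ B := Finset.sum_nonneg fun _ _ => norm_nonneg _
  have hFB : ∀ ξ ∈ F, ‖ξ‖ ≤ B := fun ξ hξ =>
    Finset.single_le_sum (f := fun ξ => ‖ξ‖) (fun _ _ => norm_nonneg _) hξ
  obtain ⟨k, hk, hk2⟩ := h (ε / (2 * (B ^ 2 + 1))) (by positivity)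
  refine ⟨k, hk, ?_⟩
  intro ξ hξ η hη
  calc ‖⟪η, (k - x) ξ⟫_ℂ‖ ≤ ‖η‖ * ‖(k - x) ξ‖ := norm_inner_le_norm _ _
    _ ≤ ‖η‖ * (‖k - x‖ * ‖ξ‖) := by gcongr; exact ContinuousLinearMap.le_opNorm _ _
    _ ≤ B * (ε / (2 * (B ^ 2 + 1)) * B) := by
        gcongr
        · exact hFB η hη
        · exact hFB ξ hξ
    _ = (ε / 2) * (B ^ 2 / (B ^ 2 + 1)) := by field_simp
    _ ≤ (ε / 2) * 1 := by
        gcongr
        rw [div_le_one (by positivity)]
        linarith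
    _ < ε := by linarith

lemma InK.unitary_mul {u k : H →L[ℂ] H} (hu : u ∈ M) (h1 : star u * u = 1) (h2 : u * star u = 1)
    (hk : InK M k) : InK M (u * k) := by
  classical
  intro F ε hε
  obtain ⟨v, hv, h3, h4, h5⟩ := hk (F ∪ F.image (fun η => star u η)) ε hε
  refine ⟨u * v, mul_mem hu hv, ?_, ?_, ?_⟩
  · calc star (u * v) * (u * v) = star v * (star u * u) * v := by rw [star_mul]; simp only [mul_assoc]
      _ = 1 := by rw [h1, mul_one, h3]
  · calc (u * v) * star (u * v) = u * (v * star v) * star u := by rw [star_mul]; simp only [mul_assoc]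
      _ = 1 := by rw [h4, mul_one, h2]
  · intro ξ hξ η hη
    have e : ⟪η, (u * v - u * k) ξ⟫_ℂ = ⟪star u η, (v - k) ξ⟫_ℂ := by
      rw [ContinuousLinearMap.star_eq_adjoint, ContinuousLinearMap.adjoint_inner_left]
      congr 1
      simp
    rw [e]
    exact h5 ξ (Finset.mem_union_left _ hξ) _
      (Finset.mem_union_right _ (Finset.mem_image_of_mem _ hη))

lemma InK.mul_unitary {u k : H →L[ℂ] H} (hu : u ∈ M) (h1 : star u * u = 1) (h2 : u * star u = 1)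
    (hk : InK M k) : InK M (k * u) := by
  classical
  intro F ε hε
  obtain ⟨v, hv, h3, h4, h5⟩ := hk (F ∪ F.image (fun ξ => u ξ)) ε hε
  refine ⟨v * u, mul_mem hv hu, ?_, ?_, ?_⟩
  · calc star (v * u) * (v * u) = star u * (star v * v) * u := by rw [star_mul]; simp only [mul_assoc]
      _ = 1 := by rw [h3, mul_one, h1]
  · calc (v * u) * star (v * u) = v * (u * star u) * star v := by rw [star_mul]; simp only [mul_assoc]
      _ = 1 := by rw [h2, mul_one, h4]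
  · intro ξ hξ η hη
    have e : (v * u - k * u) ξ = (v - k) (u ξ) := by simp
    rw [e]
    exact h5 _ (Finset.mem_union_right _ (Finset.mem_image_of_mem _ hξ)) η
      (Finset.mem_union_left _ hη)

lemma InK.mul {k l : H →L[ℂ] H} (hk : InK M k) (hl : InK M l) : InK M (k * l) := by
  classical
  apply InK.of_close
  intro F ε hε
  obtain ⟨v, hv, h3, h4, h5⟩ := hk (F ∪ F.image (fun ξ => l ξ)) ε hε
  refine ⟨v * l, hl.unitary_mul hv h3 h4, ?_⟩
  intro ξ hξ η hη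
  have e : (v * l - k * l) ξ = (v - k) (l ξ) := by simp
  rw [e]
  exact h5 _ (Finset.mem_union_right _ (Finset.mem_image_of_mem _ hξ)) η
    (Finset.mem_union_left _ hη)

/-- averaging with a fixed element, once it is possible for unitaries -/
lemma InK.avg {x k : H →L[ℂ] H} (h : ∀ u ∈ M, star u * u = 1 → u * star u = 1 →
    InK M ((1 / 2 : ℂ) • (u + x))) (hk : InK M k) : InK M ((1 / 2 : ℂ) • (k + x)) := by
  apply InK.of_close
  intro F ε hε
  obtain ⟨v, hv, h3, h4, h5⟩ := hk F ε hε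
  refine ⟨(1 / 2 : ℂ) • (v + x), h v hv h3 h4, ?_⟩
  intro ξ hξ η hη
  have e : ((1 / 2 : ℂ) • (v + x) - (1 / 2 : ℂ) • (k + x)) ξ = (1 / 2 : ℂ) • (v - k) ξ := by
    rw [← smul_sub]
    simp
  rw [e, inner_smul_right, norm_mul]
  have := h5 ξ hξ η hη
  have h0 := norm_nonneg ⟪η, (v - k) ξ⟫_ℂ
  have e2 : ‖(1 / 2 : ℂ)‖ = 1 / 2 := by norm_num
  rw [e2]
  linarith

end Pool.Agent.Helper97.Resid
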