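import Mathlib
import Pool.Agent.Helper97.Resid.Weak

/-!
# Projections of a von Neumann algebra
-/

set_option linter.unusedSectionVars false

open scoped InnerProductSpace ENNReal

universe u

namespace Pool.Agent.Helper97.Resid

variable {H : Type u} [NormedAddCommGroup H] [InnerProductSpace ℂ H] [CompleteSpace H]

/-- the projection onto the closure of `K` -/
noncomputable def pj (K : Submodule ℂ H) : H →L[ℂ] H := K.topologicalClosure.starProjection

lemma pj_proj (K : Submodule ℂ H) : IsStarProjection (pj K) := isStarProjection_starProjection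

lemma pj_of_mem {K : Submodule ℂ H} {x : H} (hx : x ∈ K) : pj K x = x :=
  Submodule.starProjection_eq_self_iff.2 (K.le_topologicalClosure hx)

lemma pj_mem_closure (K : Submodule ℂ H) (x : H) : pj K x ∈ K.topologicalClosure :=
  Submodule.starProjection_apply_mem _ _

lemma mul_pj {K : Submodule ℂ H} {t s : H →L[ℂ] H} (h : ∀ x ∈ K, t x = s x) :
    t * pj K = s * pj K := by
  ext v
  show t (pj K v) = s (pj K v)
  have hc : IsClosed {x : H | t x = s x} := isClosed_eq t.continuous s.continuous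
  have hsub : closure (K : Set H) ⊆ {x : H | t x = s x} := closure_minimal h hc
  exact hsub (pj_mem_closure K v)

lemma pj_mem {M : VonNeumannAlgebra H} {K : Submodule ℂ H}
    (h : ∀ y ∈ M.commutant, ∀ x ∈ K, y x ∈ K) : pj K ∈ M := by
  rw [VonNeumannAlgebra.IsStarProjection.mem_iff (pj_proj K)]
  intro y hy
  have hr : (pj K).range = K.topologicalClosure := Submodule.range_starProjection _
  rw [hr, Module.End.mem_invtSubmodule]
  intro x hx
  show y x ∈ K.topologicalClosure
  have hc : IsClosed {x : H | y x ∈ K.topologicalClosure} :=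
    K.isClosed_topologicalClosure.preimage y.continuous
  have hsub : closure (K : Set H) ⊆ {x : H | y x ∈ K.topologicalClosure} :=
    closure_minimal (fun x hx => K.le_topologicalClosure (h y hy x hx)) hc
  exact hsub hx

section algebra

variable {p q r s : H →L[ℂ] H}

/-- a projection of `M` -/
def PrM (M : VonNeumannAlgebra H) (p : H →L[ℂ] H) : Prop := p ∈ M ∧ IsStarProjection p

lemma proj_mul_self (hp : IsStarProjection p) : p * p = p := hp.isIdempotentElem

lemma proj_star (hp : IsStarProjection p) : star p = p := hp.isSelfAdjoint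

/-- `q p = p` implies `p q = p` for projections -/
lemma sub_symm (hp : IsStarProjection p) (hq : IsStarProjection q) (h : q * p = p) : p * q = p := by
  have := congrArg star h
  rwa [star_mul, proj_star hp, proj_star hq] at this

lemma orth_symm (hp : IsStarProjection p) (hq : IsStarProjection q) (h : q * p = 0) :
    p * q = 0 := by
  have := congrArg star h
  rwa [star_mul, proj_star hp, proj_star hq, star_zero] at this

lemma proj_add (hp : IsStarProjection p) (hq : IsStarProjection q) (h : p * q = 0) :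
    IsStarProjection (p + q) := by
  refine ⟨?_, ?_⟩
  · show (p + q) * (p + q) = p + q
    rw [add_mul, mul_add, mul_add, proj_mul_self hp, proj_mul_self hq, h, orth_symm hq hp h]
    abel
  · exact hp.isSelfAdjoint.add hq.isSelfAdjoint

lemma proj_sub (hp : IsStarProjection p) (hq : IsStarProjection q) (h : q * p = p) :
    IsStarProjection (q - p) := by
  refine ⟨?_, ?_⟩
  · show (q - p) * (q - p) = q - p
    rw [sub_mul, mul_sub, mul_sub, proj_mul_self hp, proj_mul_self hq, h, sub_symm hp hq h]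
    abel
  · exact hq.isSelfAdjoint.sub hp.isSelfAdjoint

lemma PrM.add {M : VonNeumannAlgebra H} (hp : PrM M p) (hq : PrM M q) (h : p * q = 0) :
    PrM M (p + q) := ⟨add_mem hp.1 hq.1, proj_add hp.2 hq.2 h⟩

lemma PrM.sub {M : VonNeumannAlgebra H} (hp : PrM M p) (hq : PrM M q) (h : q * p = p) :
    PrM M (q - p) := ⟨sub_mem hq.1 hp.1, proj_sub hp.2 hq.2 h⟩

lemma PrM.zero {M : VonNeumannAlgebra H} : PrM M (0 : H →L[ℂ] H) :=
  ⟨zero_mem M, IsStarProjection.zero _⟩

lemma norm_proj_apply_le (hp : IsStarProjection p) (x : H) : ‖p x‖ ≤ ‖x‖ := by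
  have h1 : ‖p x‖ ^ 2 ≤ ‖p x‖ * ‖x‖ := by
    have h2 : ⟪p x, p x⟫_ℂ = ⟪p x, x⟫_ℂ := by
      have : ⟪p x, p x⟫_ℂ = ⟪(star p) (p x), x⟫_ℂ := by
        rw [ContinuousLinearMap.star_eq_adjoint, ContinuousLinearMap.adjoint_inner_left]
      rw [this, proj_star hp]
      congr 1
      show (p * p) x = p x
      rw [proj_mul_self hp]
    have h3 : (‖p x‖ ^ 2 : ℝ) = ‖⟪p x, x⟫_ℂ‖ := by
      rw [← h2, inner_self_eq_norm_sq_to_K]
      simp
    rw [h3]
    exact norm_inner_le_norm _ _
  rcases eq_or_lt_of_le (norm_nonneg (p x)) with h0 | h0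
  · rw [← h0]; exact norm_nonneg _
  · nlinarith

lemma inner_proj (hp : IsStarProjection p) (x y : H) : ⟪p x, y⟫_ℂ = ⟪x, p y⟫_ℂ := by
  have : ⟪(star p) x, y⟫_ℂ = ⟪x, p y⟫_ℂ := by
    rw [ContinuousLinearMap.star_eq_adjoint, ContinuousLinearMap.adjoint_inner_left]
  rwa [proj_star hp] at this

lemma inner_proj_proj (hp : IsStarProjection p) (x y : H) : ⟪x, p y⟫_ℂ = ⟪p x, p y⟫_ℂ := by
  rw [inner_proj hp x (p y)]
  congr 1
  show p y = (p * p) y
  rw [proj_mul_self hp]

lemma norm_sq_add (hp : IsStarProjection p) (_hq : IsStarProjection q) (h : p * q = 0) (x : H) :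
    ‖(p + q) x‖ ^ 2 = ‖p x‖ ^ 2 + ‖q x‖ ^ 2 := by
  show ‖p x + q x‖ ^ 2 = _
  have h1 : ⟪p x, q x⟫_ℂ = 0 := by
    rw [inner_proj hp]
    have : p (q x) = (p * q) x := rfl
    rw [this, h]
    simp
  rw [norm_add_sq (𝕜 := ℂ), h1]
  simp

end algebra

section chain

variable (C : Set (H →L[ℂ] H))

/-- the union of the ranges of a chain of projections -/
def chainSub (hne : C.Nonempty) (hC : ∀ p ∈ C, ∀ q ∈ C, q * p = p ∨ p * q = q) : Submodule ℂ H where
  carrier := {x | ∃ p ∈ C, p x = x}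
  add_mem' := by
    rintro x y ⟨p, hp, hx⟩ ⟨q, hq, hy⟩
    rcases hC p hp q hq with h | h
    · refine ⟨q, hq, ?_⟩
      have h1 : q x = x := by
        rw [← hx]
        show (q * p) x = p x
        rw [h]
      rw [map_add, h1, hy]
    · refine ⟨p, hp, ?_⟩
      have h1 : p y = y := by
        rw [← hy]
        show (p * q) y = q y
        rw [h]
      rw [map_add, h1, hx]
  zero_mem' := by
    obtain ⟨p, hp⟩ := hne
    exact ⟨p, hp, map_zero p⟩
  smul_mem' := by
    rintro c x ⟨p, hp, hx⟩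
    exact ⟨p, hp, by rw [map_smul, hx]⟩

variable {C}

lemma chain_sup {M : VonNeumannAlgebra H} (hne : C.Nonempty) (hM : ∀ p ∈ C, PrM M p)
    (hC : ∀ p ∈ C, ∀ q ∈ C, q * p = p ∨ p * q = q) :
    ∃ P, PrM M P ∧ (∀ p ∈ C, P * p = p) ∧ (∀ r, (∀ p ∈ C, r * p = p) → r * P = P) ∧
      ∀ (F : Finset H) (ε : ℝ), 0 < ε → ∃ p ∈ C, ∀ ξ ∈ F, ‖(P - p) ξ‖ < ε := by
  classical
  set K := chainSub C hne hC with hK
  have hPm : pj K ∈ M := by
    apply pj_mem
    rintro y hy x ⟨p, hp, hx⟩
    refine ⟨p, hp, ?_⟩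
    have h1 : p * y = y * p := (VonNeumannAlgebra.mem_commutant_iff.1 hy) p (hM p hp).1
    calc p (y x) = (p * y) x := rfl
      _ = (y * p) x := by rw [h1]
      _ = y (p x) := rfl
      _ = y x := by rw [hx]
  have hP : IsStarProjection (pj K) := pj_proj K
  have hle : ∀ p ∈ C, pj K * p = p := by
    intro p hp
    ext v
    show pj K (p v) = p v
    apply pj_of_mem
    refine ⟨p, hp, ?_⟩
    show (p * p) v = p v
    rw [proj_mul_self (hM p hp).2]
  refine ⟨pj K, ⟨hPm, hP⟩, hle, ?_, ?_⟩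
  · intro r hr
    have := mul_pj (K := K) (t := r) (s := 1) (by
      rintro x ⟨p, hp, hx⟩
      show r x = x
      rw [← hx]
      show (r * p) x = p x
      rw [hr p hp])
    rw [this, one_mul]
  · -- approximation of a single vector
    have single : ∀ (ξ : H) (ε : ℝ), 0 < ε → ∃ p ∈ C, ‖(pj K - p) ξ‖ < ε := by
      intro ξ ε hε
      have h1 : pj K ξ ∈ closure (K : Set H) := pj_mem_closure K ξ
      rw [Metric.mem_closure_iff] at h1
      obtain ⟨y, ⟨p, hp, hy⟩, hd⟩ := h1 ε hε
      refine ⟨p, hp, ?_⟩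
      have hp1 := (hM p hp).2
      have e : (pj K - p) ξ = (1 - p) (pj K ξ - y) := by
        have h2 : p (pj K ξ) = p ξ := by
          show (p * pj K) ξ = p ξ
          rw [sub_symm hp1 hP (hle p hp)]
        show pj K ξ - p ξ = (pj K ξ - y) - p (pj K ξ - y)
        rw [map_sub, h2, hy]
        abel
      rw [e]
      refine (norm_proj_apply_le hp1.one_sub _).trans_lt ?_
      rwa [← dist_eq_norm]
    have mono : ∀ p ∈ C, ∀ q ∈ C, q * p = p → ∀ ξ, ‖(pj K - q) ξ‖ ≤ ‖(pj K - p) ξ‖ := by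
      intro p hp q hq hqp ξ
      have e : pj K - q = (1 - q) * (pj K - p) := by
        rw [mul_sub, sub_mul, sub_mul, one_mul, one_mul, hqp,
          sub_symm (hM q hq).2 hP (hle q hq)]
        abel
      rw [e]
      exact norm_proj_apply_le (hM q hq).2.one_sub _
    intro F ε hε
    induction F using Finset.induction_on with
    | empty =>
      obtain ⟨p, hp⟩ := hne
      exact ⟨p, hp, by simp⟩
    | insert a F ha ih =>
      obtain ⟨p, hp, h1⟩ := ih
      obtain ⟨q, hq, h2⟩ := single a ε hε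
      rcases hC p hp q hq with h | h
      · refine ⟨q, hq, ?_⟩
        intro ξ hξ
        rcases Finset.mem_insert.1 hξ with rfl | hξ
        · exact h2
        · exact (mono p hp q hq h ξ).trans_lt (h1 ξ hξ)
      · refine ⟨p, hp, ?_⟩
        intro ξ hξ
        rcases Finset.mem_insert.1 hξ with rfl | hξ
        · exact (mono q hq p hp h ξ).trans_lt h2
        · exact h1 ξ hξ

end chain

/-- Exhaustion principle. -/
theorem exhaust {M : VonNeumannAlgebra H} {p : H →L[ℂ] H} (hp : PrM M p)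
    (Q : (H →L[ℂ] H) → Prop) (h0 : Q 0)
    (hadd : ∀ r s, PrM M r → PrM M s → r * s = 0 → Q r → Q s → Q (r + s))
    (hchain : ∀ (C : Set (H →L[ℂ] H)) (P : H →L[ℂ] H), (∀ r ∈ C, PrM M r ∧ Q r) → PrM M P →
      (∀ r ∈ C, P * r = r) →
      (∀ (F : Finset H) (ε : ℝ), 0 < ε → ∃ r ∈ C, ∀ ξ ∈ F, ‖(P - r) ξ‖ < ε) → Q P)
    (hex : ∀ r, PrM M r → p * r = r → r ≠ 0 → ∃ s, PrM M s ∧ r * s = s ∧ s ≠ 0 ∧ Q s) : Q p := by
  let α := {r : H →L[ℂ] H // PrM M r ∧ p * r = r ∧ Q r}
  let R : α → α → Prop := fun a b => b.1 * a.1 = a.1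
  have hrefl : ∀ a : α, R a a := fun a => proj_mul_self a.2.1.2
  have htrans : ∀ {a b c : α}, R a b → R b c → R a c := by
    intro a b c hab hbc
    show c.1 * a.1 = a.1
    have h1 : b.1 * a.1 = a.1 := hab
    have h2 : c.1 * b.1 = b.1 := hbc
    rw [← h1, ← mul_assoc, h2]
  have hz := exists_maximal_of_chains_bounded (r := R) (by
    intro c hc
    rcases c.eq_empty_or_nonempty with rfl | hne
    · exact ⟨⟨0, PrM.zero, by simp, h0⟩, by simp⟩
    · set C : Set (H →L[ℂ] H) := Subtype.val '' c with hCdef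
      have hCne : C.Nonempty := hne.image _
      have hM : ∀ r ∈ C, PrM M r := by
        rintro r ⟨a, _, rfl⟩; exact a.2.1
      have hCh : ∀ r ∈ C, ∀ s ∈ C, s * r = r ∨ r * s = s := by
        rintro r ⟨a, ha, rfl⟩ s ⟨b, hb, rfl⟩
        by_cases hab : a = b
        · subst hab; left; exact hrefl a
        · rcases hc ha hb hab with h | h
          · left; exact h
          · right; exact h
      obtain ⟨P, hPM, hP1, hP2, hP3⟩ := chain_sup hCne hM hCh
      have hpP : p * P = P := hP2 p (by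
        rintro r ⟨a, _, rfl⟩; exact a.2.2.1)
      have hQP : Q P := hchain C P (by
        rintro r ⟨a, _, rfl⟩; exact ⟨a.2.1, a.2.2.2⟩) hPM hP1 hP3
      refine ⟨⟨P, hPM, hpP, hQP⟩, ?_⟩
      intro a ha
      exact hP1 a.1 ⟨a, ha, rfl⟩) (fun h1 h2 => htrans h1 h2)
  obtain ⟨m, hm⟩ := hz
  by_contra hQ
  have hne : p - m.1 ≠ 0 := by
    intro h
    apply hQ
    rw [sub_eq_zero.1 h]
    exact m.2.2.2
  have hpm : PrM M (p - m.1) := m.2.1.sub hp m.2.2.1
  obtain ⟨s, hs1, hs2, hs3, hs4⟩ := hex (p - m.1) hpm (by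
    rw [mul_sub, proj_mul_self hp.2, m.2.2.1]) hne
  have hms : m.1 * s = 0 := by
    rw [← hs2, ← mul_assoc, mul_sub, sub_symm m.2.1.2 hp.2 m.2.2.1, proj_mul_self m.2.1.2,
      sub_self, zero_mul]
  have hsum : PrM M (m.1 + s) := m.2.1.add hs1 hms
  have hps : p * s = s := by
    rw [← hs2, ← mul_assoc, mul_sub, proj_mul_self hp.2, m.2.2.1]
  have h4 := hm ⟨m.1 + s, hsum, by rw [mul_add, m.2.2.1, hps], hadd _ _ m.2.1 hs1 hms m.2.2.2 hs4⟩
    (by
      show (m.1 + s) * m.1 = m.1
      rw [add_mul, proj_mul_self m.2.1.2, orth_symm hs1.2 m.2.1.2 hms, add_zero])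
  have h5 : m.1 * (m.1 + s) = m.1 + s := h4
  rw [mul_add, proj_mul_self m.2.1.2, hms, add_zero] at h5
  exact hs3 (left_eq_add.1 h5)

end Pool.Agent.Helper97.Resid
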