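import Mathlib
import Pool.Agent.Helper97.Resid.Proj

/-!
# Contractions `(1 - p) + c p` are weak limits of unitaries
-/

set_option linter.unusedSectionVars false

open scoped InnerProductSpace ENNReal

universe u

namespace Pool.Agent.Helper97.Resid

variable {H : Type u} [NormedAddCommGroup H] [InnerProductSpace ℂ H] [CompleteSpace H]
  {M : VonNeumannAlgebra H}

/-- `(1 - p) + c p` is a weak limit of unitaries for all `c ∈ [0, 1]` -/
def Dp (M : VonNeumannAlgebra H) (p : H →L[ℂ] H) : Prop :=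
  ∀ c : ℝ, 0 ≤ c → c ≤ 1 → InK M (1 - p + (c : ℂ) • p)

lemma smul_mem_M {x : H →L[ℂ] H} (c : ℂ) (hx : x ∈ M) : c • x ∈ M :=
  M.toStarSubalgebra.smul_mem hx c

lemma Dp.zero : Dp M (0 : H →L[ℂ] H) := by
  intro c _ _
  simpa using InK.one

lemma Dp.add {r s : H →L[ℂ] H} (hr : PrM M r) (hs : PrM M s) (hrs : r * s = 0) (h1 : Dp M r)
    (h2 : Dp M s) : Dp M (r + s) := by
  intro c hc0 hc1
  have h := (h1 c hc0 hc1).mul (h2 c hc0 hc1)
  have hsr : s * r = 0 := orth_symm hs.2 hr.2 hrs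
  have e : (1 - r + (c : ℂ) • r) * (1 - s + (c : ℂ) • s) = 1 - (r + s) + (c : ℂ) • (r + s) := by
    simp only [add_mul, sub_mul, mul_add, mul_sub, one_mul, mul_one, mul_smul_comm, smul_mul_assoc,
      hrs, smul_zero, smul_add, sub_zero, add_zero]
    abel
  rwa [e] at h

lemma Dp.chain {C : Set (H →L[ℂ] H)} {P : H →L[ℂ] H} (hC : ∀ r ∈ C, PrM M r ∧ Dp M r)
    (hap : ∀ (F : Finset H) (ε : ℝ), 0 < ε → ∃ r ∈ C, ∀ ξ ∈ F, ‖(P - r) ξ‖ < ε) : Dp M P := by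
  classical
  intro c hc0 hc1
  apply InK.of_close
  intro F ε hε
  set B : ℝ := ∑ ξ ∈ F, ‖ξ‖ with hB
  have hB0 : 0 ≤ B := Finset.sum_nonneg fun _ _ => norm_nonneg _
  have hFB : ∀ ξ ∈ F, ‖ξ‖ ≤ B := fun ξ hξ =>
    Finset.single_le_sum (f := fun ξ => ‖ξ‖) (fun _ _ => norm_nonneg _) hξ
  obtain ⟨r, hr, h1⟩ := hap F (ε / (B + 1)) (by positivity)
  refine ⟨_, (hC r hr).2 c hc0 hc1, ?_⟩
  intro ξ hξ η hη
  have e : (1 - r + (c : ℂ) • r - (1 - P + (c : ℂ) • P)) ξ = (1 - (c : ℂ)) • (P - r) ξ := by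
    simp only [sub_apply, add_apply,
      smul_apply, one_apply_eq_self, sub_smul, one_smul, smul_sub]
    abel
  rw [e, inner_smul_right, norm_mul]
  have h2 : ‖(1 - (c : ℂ))‖ ≤ 1 := by
    have : (1 - (c : ℂ)) = ((1 - c : ℝ) : ℂ) := by push_cast; ring
    rw [this, Complex.norm_real, Real.norm_eq_abs, abs_of_nonneg (by linarith)]
    linarith
  have h3 : ‖⟪η, (P - r) ξ⟫_ℂ‖ ≤ B * (ε / (B + 1)) :=
    (norm_inner_le_norm _ _).trans (mul_le_mul (hFB η hη) (h1 ξ hξ).le (norm_nonneg _) hB0)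
  have h4 : B * (ε / (B + 1)) < ε := by
    rw [mul_div_assoc', div_lt_iff₀ (by positivity)]
    nlinarith
  calc _ ≤ 1 * ‖⟪η, (P - r) ξ⟫_ℂ‖ := mul_le_mul_of_nonneg_right h2 (norm_nonneg _)
    _ < ε := by rw [one_mul]; linarith

/-- a minimal projection of `M` -/
def Mini (M : VonNeumannAlgebra H) (e : H →L[ℂ] H) : Prop :=
  PrM M e ∧ e ≠ 0 ∧ ∀ s, PrM M s → e * s = s → s = 0 ∨ s = e

/-- matrix coefficient size of an operator on a finite set of vectors -/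
noncomputable def sz (F : Finset H) (T : H →L[ℂ] H) : ℝ := ∑ ξ ∈ F, ∑ η ∈ F, ‖⟪η, T ξ⟫_ℂ‖ ^ 2

lemma sz_add_or (F : Finset H) (T S : H →L[ℂ] H) :
    sz F (T + S) ≤ sz F T + sz F S ∨ sz F (T - S) ≤ sz F T + sz F S := by
  have h : sz F (T + S) + sz F (T - S) = 2 * (sz F T + sz F S) := by
    unfold sz
    rw [← Finset.sum_add_distrib, ← Finset.sum_add_distrib, Finset.mul_sum]
    apply Finset.sum_congr rfl
    intro ξ _
    rw [← Finset.sum_add_distrib, ← Finset.sum_add_distrib, Finset.mul_sum]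
    apply Finset.sum_congr rfl
    intro η _
    have e1 : ⟪η, (T + S) ξ⟫_ℂ = ⟪η, T ξ⟫_ℂ + ⟪η, S ξ⟫_ℂ := by
      rw [← inner_add_right]; rfl
    have e2 : ⟪η, (T - S) ξ⟫_ℂ = ⟪η, T ξ⟫_ℂ - ⟪η, S ξ⟫_ℂ := by
      rw [← inner_sub_right]; rfl
    rw [e1, e2]
    have := parallelogram_law_with_norm ℂ (⟪η, T ξ⟫_ℂ) (⟪η, S ξ⟫_ℂ)
    nlinarith [this]
  by_contra hc
  push Not at hc
  linarith [hc.1, hc.2]

/-- the splitting property -/
def Spl (M : VonNeumannAlgebra H) (F : Finset H) (ε : ℝ) (r : H →L[ℂ] H) : Prop :=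
  ∃ q, PrM M q ∧ r * q = q ∧ sz F (2 * q - r) ≤ ε * (F.card * ∑ ξ ∈ F, ‖r ξ‖ ^ 2)

lemma Spl.add {F : Finset H} {ε : ℝ} {r s : H →L[ℂ] H} (hr : PrM M r) (hs : PrM M s)
    (hrs : r * s = 0) (h1 : Spl M F ε r) (h2 : Spl M F ε s) : Spl M F ε (r + s) := by
  obtain ⟨q, hq, hrq, hq2⟩ := h1
  obtain ⟨q', hq', hsq, hq2'⟩ := h2
  have hsr : s * r = 0 := orth_symm hs.2 hr.2 hrs
  have hsum : ∑ ξ ∈ F, ‖(r + s) ξ‖ ^ 2 = ∑ ξ ∈ F, ‖r ξ‖ ^ 2 + ∑ ξ ∈ F, ‖s ξ‖ ^ 2 := by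
    rw [← Finset.sum_add_distrib]
    exact Finset.sum_congr rfl fun ξ _ => norm_sq_add hr.2 hs.2 hrs ξ
  have hrq' : r * q' = 0 := by rw [← hsq, ← mul_assoc, hrs, zero_mul]
  have hsq' : s * q = 0 := by rw [← hrq, ← mul_assoc, hsr, zero_mul]
  have hqq' : q * q' = 0 := by
    rw [← sub_symm hq.2 hr.2 hrq, mul_assoc, hrq', mul_zero]
  have bound : sz F (2 * q - r) + sz F (2 * q' - s)
      ≤ ε * (F.card * ∑ ξ ∈ F, ‖(r + s) ξ‖ ^ 2) := by
    rw [hsum]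
    linarith
  rcases sz_add_or F (2 * q - r) (2 * q' - s) with h | h
  · refine ⟨q + q', hq.add hq' hqq', ?_, ?_⟩
    · rw [add_mul, mul_add, mul_add, hrq, hrq', hsq, hsq', add_zero, zero_add]
    · have e : 2 * (q + q') - (r + s) = (2 * q - r) + (2 * q' - s) := by
        rw [mul_add]; abel
      rw [e]
      exact h.trans bound
  · have hq'' : PrM M (s - q') := hq'.sub hs hsq
    have hq3 : q * (s - q') = 0 := by
      rw [mul_sub, hqq', sub_zero, ← sub_symm hq.2 hr.2 hrq, mul_assoc, hrs, mul_zero]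
    refine ⟨q + (s - q'), hq.add hq'' hq3, ?_, ?_⟩
    · rw [add_mul, mul_add, mul_add, mul_sub, mul_sub, hrq, hrq', hsq, hsq', hrs,
        proj_mul_self hs.2]
      abel
    · have e : 2 * (q + (s - q')) - (r + s) = (2 * q - r) - (2 * q' - s) := by
        rw [mul_add, mul_sub, two_mul s]; abel
      rw [e]
      exact h.trans bound

lemma Spl.small {F : Finset H} {ε : ℝ} {r : H →L[ℂ] H} (hr : PrM M r)
    (h : ∀ ξ ∈ F, ‖r ξ‖ ^ 2 ≤ ε) : Spl M F ε r := by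
  refine ⟨r, hr, proj_mul_self hr.2, ?_⟩
  have e : 2 * r - r = r := by rw [two_mul]; abel
  rw [e]
  unfold sz
  have h1 : ∀ ξ ∈ F, ∑ η ∈ F, ‖⟪η, r ξ⟫_ℂ‖ ^ 2 ≤ F.card * (ε * ‖r ξ‖ ^ 2) := by
    intro ξ _
    have h2 : ∀ η ∈ F, ‖⟪η, r ξ⟫_ℂ‖ ^ 2 ≤ ε * ‖r ξ‖ ^ 2 := by
      intro η hη
      rw [inner_proj_proj hr.2]
      have h3 := norm_inner_le_norm (𝕜 := ℂ) (r η) (r ξ)
      calc ‖⟪r η, r ξ⟫_ℂ‖ ^ 2 ≤ (‖r η‖ * ‖r ξ‖) ^ 2 := pow_le_pow_left₀ (norm_nonneg _) h3 2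
        _ = ‖r η‖ ^ 2 * ‖r ξ‖ ^ 2 := by ring
        _ ≤ ε * ‖r ξ‖ ^ 2 := mul_le_mul_of_nonneg_right (h η hη) (sq_nonneg _)
    refine (Finset.sum_le_sum h2).trans ?_
    simp
  refine (Finset.sum_le_sum h1).trans (le_of_eq ?_)
  rw [Finset.mul_sum, Finset.mul_sum]
  apply Finset.sum_congr rfl
  intro ξ _
  ring

/-- a projection without minimal subprojections has arbitrarily small subprojections -/
lemma exists_small {r : H →L[ℂ] H} (hr : PrM M r) (h0 : r ≠ 0)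
    (hd : ∀ e, Mini M e → r * e ≠ e) (F : Finset H) (n : ℕ) :
    ∃ s, PrM M s ∧ r * s = s ∧ s ≠ 0 ∧ ∑ ξ ∈ F, ‖s ξ‖ ^ 2 ≤ (∑ ξ ∈ F, ‖r ξ‖ ^ 2) / 2 ^ n := by
  induction n with
  | zero => exact ⟨r, hr, proj_mul_self hr.2, h0, by simp⟩
  | succ n ih =>
    obtain ⟨s, hs, hrs, hs0, hs1⟩ := ih
    have hnm : ¬ Mini M s := fun h => hd s h hrs
    unfold Mini at hnm
    push Not at hnm
    obtain ⟨t, ht, hst, ht0, hts⟩ := hnm hs hs0
    have ht' : PrM M (s - t) := ht.sub hs hst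
    have h5 : ∑ ξ ∈ F, ‖s ξ‖ ^ 2 = ∑ ξ ∈ F, ‖t ξ‖ ^ 2 + ∑ ξ ∈ F, ‖(s - t) ξ‖ ^ 2 := by
      rw [← Finset.sum_add_distrib]
      apply Finset.sum_congr rfl
      intro ξ _
      have h6 : t * (s - t) = 0 := by
        rw [mul_sub, sub_symm ht.2 hs.2 hst, proj_mul_self ht.2, sub_self]
      have h7 := norm_sq_add ht.2 ht'.2 h6 ξ
      have h8 : t + (s - t) = s := by abel
      rwa [h8] at h7
    have hrt : r * t = t := by rw [← hst, ← mul_assoc, hrs]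
    rcases le_total (∑ ξ ∈ F, ‖t ξ‖ ^ 2) (∑ ξ ∈ F, ‖(s - t) ξ‖ ^ 2) with h | h
    · refine ⟨t, ht, hrt, ht0, ?_⟩
      rw [pow_succ, ← div_div]
      linarith
    · refine ⟨s - t, ht', by rw [mul_sub, hrs, hrt], fun h' => hts (sub_eq_zero.1 h').symm, ?_⟩
      rw [pow_succ, ← div_div]
      linarith

/-- projections without minimal subprojections split -/
lemma spl_of_diffuse {p : H →L[ℂ] H} (hp : PrM M p) (hd : ∀ e, Mini M e → p * e ≠ e)
    (F : Finset H) {ε : ℝ} (hε : 0 < ε) : Spl M F ε p := by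
  apply exhaust hp (Spl M F ε)
  · exact Spl.small PrM.zero (by intro ξ _; simpa using hε.le)
  · intro r s hr hs hrs h1 h2
    exact Spl.add hr hs hrs h1 h2
  · intro C P hC hP hle hap
    obtain ⟨r, hr, h1⟩ := hap F (min 1 ε) (lt_min one_pos hε)
    have hPr : PrM M (P - r) := (hC r hr).1.sub hP (hle r hr)
    have h2 : Spl M F ε (P - r) := by
      apply Spl.small hPr
      intro ξ hξ
      have h3 := h1 ξ hξ
      have h4 : ‖(P - r) ξ‖ ≤ 1 := h3.le.trans (min_le_left _ _)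
      have h5 : ‖(P - r) ξ‖ ≤ ε := h3.le.trans (min_le_right _ _)
      nlinarith [norm_nonneg ((P - r) ξ)]
    have h3 : r * (P - r) = 0 := by
      rw [mul_sub, sub_symm (hC r hr).1.2 hP.2 (hle r hr), proj_mul_self (hC r hr).1.2, sub_self]
    have h4 := Spl.add (hC r hr).1 hPr h3 (hC r hr).2 h2
    have e : r + (P - r) = P := by abel
    rwa [e] at h4
  · intro r hr hpr hr0
    have hd' : ∀ e, Mini M e → r * e ≠ e := by
      intro e he hre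
      apply hd e he
      rw [← hre, ← mul_assoc, hpr]
    -- choose n large
    set B := ∑ ξ ∈ F, ‖r ξ‖ ^ 2 with hB
    have hB0 : 0 ≤ B := Finset.sum_nonneg fun _ _ => sq_nonneg _
    obtain ⟨n, hn⟩ := pow_unbounded_of_one_lt (B / ε) (one_lt_two)
    obtain ⟨s, hs, hrs, hs0, hs1⟩ := exists_small hr hr0 hd' F n
    refine ⟨s, hs, hrs, hs0, Spl.small hs ?_⟩
    intro ξ hξ
    have h1 : ‖s ξ‖ ^ 2 ≤ ∑ ξ ∈ F, ‖s ξ‖ ^ 2 :=
      Finset.single_le_sum (f := fun ξ => ‖s ξ‖ ^ 2) (fun _ _ => sq_nonneg _) hξ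
    have h2 : B / 2 ^ n ≤ ε := by
      rw [div_le_iff₀ (by positivity)]
      rw [div_lt_iff₀ hε] at hn
      linarith
    linarith

/-- the rotation unitary -/
lemma Dp.of_spl {p : H →L[ℂ] H} (hp : PrM M p)
    (h : ∀ (F : Finset H) (ε : ℝ), 0 < ε → Spl M F ε p) : Dp M p := by
  intro c hc0 hc1 F δ hδ
  set B : ℝ := F.card * ∑ ξ ∈ F, ‖p ξ‖ ^ 2 with hB
  have hB0 : 0 ≤ B := mul_nonneg (Nat.cast_nonneg _) (Finset.sum_nonneg fun _ _ => sq_nonneg _)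
  obtain ⟨q, hq, hpq, hq2⟩ := h F (δ ^ 2 / (2 * (B + 1))) (by positivity)
  set t : ℝ := Real.sqrt (1 - c ^ 2) with ht
  have ht2 : t ^ 2 = 1 - c ^ 2 := Real.sq_sqrt (by nlinarith)
  have ht1 : |t| ≤ 1 := by
    rw [abs_of_nonneg (Real.sqrt_nonneg _)]
    nlinarith [Real.sqrt_nonneg (1 - c ^ 2), sq_nonneg c]
  -- coefficients
  set a : ℂ := (c : ℂ) + (t : ℂ) * Complex.I with ha
  set b : ℂ := (c : ℂ) - (t : ℂ) * Complex.I with hb
  have hab : a * b = 1 := by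
    rw [ha, hb]
    have h1 : ((c : ℂ) + (t : ℂ) * Complex.I) * ((c : ℂ) - (t : ℂ) * Complex.I)
        = (c : ℂ) ^ 2 + (t : ℂ) ^ 2 := by
      ring_nf
      rw [Complex.I_sq]
      ring
    rw [h1, ← Complex.ofReal_pow, ← Complex.ofReal_pow, ht2]
    push_cast
    ring
  have hsa : star a = b := by
    rw [ha, hb]
    simp [Complex.ext_iff]
  have hsb : star b = a := by rw [← hsa, star_star]
  have hp2 := proj_mul_self hp.2
  have hq1 := proj_mul_self hq.2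
  have hqp : q * p = q := sub_symm hq.2 hp.2 hpq
  set u : H →L[ℂ] H := (1 - p) + a • q + b • (p - q) with hu
  have hsu : star u = (1 - p) + b • q + a • (p - q) := by
    rw [hu, star_add, star_add, star_smul, star_smul, hsa, hsb, star_sub, star_sub, star_one,
      proj_star hp.2, proj_star hq.2]
  have huM : u ∈ M := by
    rw [hu]
    exact add_mem (add_mem (sub_mem (one_mem M) hp.1) (smul_mem_M a hq.1))
      (smul_mem_M b (sub_mem hp.1 hq.1))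
  have hprod : ∀ x y : ℂ, x * y = 1 → ((1 - p) + x • q + y • (p - q)) *
      ((1 - p) + y • q + x • (p - q)) = 1 := by
    intro x y hxy
    have hyx : y * x = 1 := by rw [mul_comm]; exact hxy
    simp only [add_mul, sub_mul, mul_add, mul_sub, one_mul, mul_one, mul_smul_comm, smul_mul_assoc,
      hp2, hq1, hqp, hpq, smul_sub, smul_add, smul_smul, hxy, hyx, sub_self, smul_zero, one_smul,
      sub_zero, add_zero, zero_add]
    abel
  refine ⟨u, huM, ?_, ?_, ?_⟩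
  · rw [hsu, hu]; exact hprod b a (by rw [mul_comm]; exact hab)
  · rw [hsu, hu]; exact hprod a b hab
  · intro ξ hξ η hη
    have e : (u - (1 - p + (c : ℂ) • p)) ξ = ((t : ℂ) * Complex.I) • (2 * q - p) ξ := by
      rw [hu, ha, hb]
      simp only [sub_apply, add_apply,
        smul_apply, one_apply_eq_self, two_mul, smul_sub, smul_add,
        add_smul, sub_smul]
      abel
    rw [e, inner_smul_right, norm_mul]
    have h1 : ‖(t : ℂ) * Complex.I‖ ≤ 1 := by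
      rw [norm_mul, Complex.norm_I, mul_one, Complex.norm_real, Real.norm_eq_abs]
      exact ht1
    have h2 : ‖⟪η, (2 * q - p) ξ⟫_ℂ‖ ^ 2 ≤ sz F (2 * q - p) := by
      unfold sz
      refine le_trans ?_ (Finset.single_le_sum (f := fun ξ => ∑ η ∈ F, ‖⟪η, (2 * q - p) ξ⟫_ℂ‖ ^ 2)
        (fun _ _ => Finset.sum_nonneg fun _ _ => sq_nonneg _) hξ)
      exact Finset.single_le_sum (f := fun η => ‖⟪η, (2 * q - p) ξ⟫_ℂ‖ ^ 2)
        (fun _ _ => sq_nonneg _) hη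
    have h3 : δ ^ 2 / (2 * (B + 1)) * B < δ ^ 2 := by
      rw [div_mul_eq_mul_div, div_lt_iff₀ (by positivity)]
      nlinarith [sq_nonneg δ, mul_pos hδ hδ]
    have h4 : ‖⟪η, (2 * q - p) ξ⟫_ℂ‖ ^ 2 < δ ^ 2 := (h2.trans hq2).trans_lt h3
    have h5 : ‖⟪η, (2 * q - p) ξ⟫_ℂ‖ < δ := lt_of_pow_lt_pow_left₀ 2 hδ.le h4
    calc _ ≤ 1 * ‖⟪η, (2 * q - p) ξ⟫_ℂ‖ := mul_le_mul_of_nonneg_right h1 (norm_nonneg _)
      _ < δ := by rw [one_mul]; exact h5

end Pool.Agent.Helper97.Resid
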