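import Mathlib
import Pool.Agent.Helper97.Resid.Dp

/-!
# Minimal projections
-/

set_option linter.unusedSectionVars false

open scoped InnerProductSpace ENNReal

universe u

namespace Pool.Agent.Helper97.Resid

variable {H : Type u} [NormedAddCommGroup H] [InnerProductSpace ℂ H] [CompleteSpace H]
  {M : VonNeumannAlgebra H}

lemma mem_of_comm {x : H →L[ℂ] H} (h : ∀ y ∈ M.commutant, x * y = y * x) : x ∈ M := by
  rw [← M.commutant_commutant, VonNeumannAlgebra.mem_commutant_iff]
  intro y hy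
  exact (h y hy).symm

lemma comm_of_mem {x : H →L[ℂ] H} (hx : x ∈ M) {y : H →L[ℂ] H} (hy : y ∈ M.commutant) :
    x * y = y * x := VonNeumannAlgebra.mem_commutant_iff.1 hy x hx

lemma posPart_mem {a : H →L[ℂ] H} (ha : a ∈ M) : a⁺ ∈ M := by
  apply mem_of_comm
  intro y hy
  have h1 : Commute a y := comm_of_mem ha hy
  rw [CFC.posPart_def]
  exact h1.cfcₙ_real _

lemma negPart_mem {a : H →L[ℂ] H} (ha : a ∈ M) : a⁻ ∈ M := by
  apply mem_of_comm
  intro y hy
  have h1 : Commute a y := comm_of_mem ha hy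
  rw [CFC.negPart_def]
  exact h1.cfcₙ_real _

/-- projection on the closure of the range -/
noncomputable def pjr (b : H →L[ℂ] H) : H →L[ℂ] H := pj (LinearMap.range (b : H →ₗ[ℂ] H))

lemma pjr_prm {b : H →L[ℂ] H} (hb : b ∈ M) : PrM M (pjr b) := by
  refine ⟨pj_mem ?_, pj_proj _⟩
  rintro y hy x ⟨v, rfl⟩
  refine ⟨y v, ?_⟩
  have h := comm_of_mem hb hy
  have h2 := congrArg (fun T : H →L[ℂ] H => T v) h
  exact h2

lemma pjr_mul (b : H →L[ℂ] H) : pjr b * b = b := by
  ext v
  exact pj_of_mem ⟨v, rfl⟩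

lemma mul_pjr_zero {t b : H →L[ℂ] H} (h : t * b = 0) : t * pjr b = 0 := by
  have h1 : t * pj (LinearMap.range (b : H →ₗ[ℂ] H)) = 0 * pj (LinearMap.range (b : H →ₗ[ℂ] H)) := by
    apply mul_pj
    rintro x ⟨v, rfl⟩
    have h2 := congrArg (fun T : H →L[ℂ] H => T v) h
    exact h2
  rw [zero_mul] at h1
  exact h1

lemma mul_pjr_self {t b : H →L[ℂ] H} (h : t * b = b) : t * pjr b = pjr b := by
  have h1 : (t - 1) * b = 0 := by rw [sub_mul, h, one_mul, sub_self]
  have h2 := mul_pjr_zero h1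
  rwa [sub_mul, one_mul, sub_eq_zero] at h2

lemma pjr_zero_of {b : H →L[ℂ] H} {ξ : H} (h : star b ξ = 0) : pjr b ξ = 0 := by
  have h1 : star b * (pjr b) = star b * pjr b := rfl
  have hcl : IsClosed {x : H | ⟪x, ξ⟫_ℂ = 0} :=
    isClosed_eq (continuous_id.inner continuous_const) continuous_const
  have hsub : closure ((LinearMap.range (b : H →ₗ[ℂ] H) : Submodule ℂ H) : Set H)
      ⊆ {x : H | ⟪x, ξ⟫_ℂ = 0} := by
    apply closure_minimal _ hcl
    rintro x ⟨v, rfl⟩
    show ⟪b v, ξ⟫_ℂ = 0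
    have : ⟪b v, ξ⟫_ℂ = ⟪v, (star b) ξ⟫_ℂ := by
      rw [ContinuousLinearMap.star_eq_adjoint, ContinuousLinearMap.adjoint_inner_right]
    rw [this, h, inner_zero_right]
  have h2 : ⟪pjr b ξ, ξ⟫_ℂ = 0 := hsub (pj_mem_closure _ ξ)
  have h3 : ⟪pjr b ξ, pjr b ξ⟫_ℂ = 0 := by
    have hp : IsStarProjection (pjr b) := pj_proj _
    rw [← inner_proj_proj hp, ← inner_proj hp, h2]
  exact inner_self_eq_zero.1 h3

lemma nonneg_apply_zero {d : H →L[ℂ] H} (hd : 0 ≤ d) {ξ : H} (h : (⟪ξ, d ξ⟫_ℂ).re = 0) :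
    d ξ = 0 := by
  have h1 : CFC.sqrt d * CFC.sqrt d = d := CFC.sqrt_mul_sqrt_self d hd
  have h2 : star (CFC.sqrt d) = CFC.sqrt d := (CFC.sqrt_nonneg d).isSelfAdjoint
  have h3 : ⟪ξ, d ξ⟫_ℂ = ⟪CFC.sqrt d ξ, CFC.sqrt d ξ⟫_ℂ := by
    conv_lhs => rw [← h1]
    show ⟪ξ, CFC.sqrt d (CFC.sqrt d ξ)⟫_ℂ = _
    conv_rhs => rw [← h2]
    rw [ContinuousLinearMap.star_eq_adjoint, ContinuousLinearMap.adjoint_inner_left,
      ← ContinuousLinearMap.star_eq_adjoint, h2]
  rw [h3, inner_self_eq_norm_sq_to_K] at h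
  have h4 : ‖CFC.sqrt d ξ‖ ^ 2 = 0 := by
    have : ((‖CFC.sqrt d ξ‖ : ℂ) ^ 2).re = ‖CFC.sqrt d ξ‖ ^ 2 := by
      rw [← Complex.ofReal_pow, Complex.ofReal_re]
    rw [← this]; exact h
  have h5 : CFC.sqrt d ξ = 0 := by
    rw [pow_eq_zero_iff two_ne_zero, norm_eq_zero] at h4
    exact h4
  rw [← h1]
  show CFC.sqrt d (CFC.sqrt d ξ) = 0
  rw [h5, map_zero]

lemma Mini.zero_of {e d : H →L[ℂ] H} (he : Mini M e) (hdM : d ∈ M) (hd : 0 ≤ d) (hed : e * d = d)
    {ξ : H} (hξ : e ξ = ξ) (hξ0 : ξ ≠ 0) (h : (⟪ξ, d ξ⟫_ℂ).re = 0) : d = 0 := by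
  have h1 := nonneg_apply_zero hd h
  have h2 : pjr d ξ = 0 := by
    apply pjr_zero_of
    rw [hd.isSelfAdjoint.star_eq]; exact h1
  rcases he.2.2 (pjr d) (pjr_prm hdM) (mul_pjr_self hed) with h3 | h3
  · rw [← pjr_mul d, h3, zero_mul]
  · rw [h3, hξ] at h2
    exact absurd h2 hξ0

lemma Mini.scalar_sa {e a : H →L[ℂ] H} (he : Mini M e) (haM : a ∈ M) (ha : star a = a)
    (hea : e * a = a) : ∃ c : ℂ, a = c • e := by
  have hep := he.1.2
  obtain ⟨v, hv⟩ : ∃ v, e v ≠ 0 := by
    by_contra hc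
    push Not at hc
    exact he.2.1 (by ext v; simpa using hc v)
  set ξ : H := ((‖e v‖⁻¹ : ℝ) : ℂ) • e v with hξ
  have hne : ‖e v‖ ≠ 0 := norm_ne_zero_iff.2 hv
  have hξn : ‖ξ‖ = 1 := by
    rw [hξ, norm_smul, Complex.norm_real, Real.norm_eq_abs, abs_of_nonneg (by positivity)]
    exact inv_mul_cancel₀ hne
  have hξ0 : ξ ≠ 0 := by
    intro h
    rw [h, norm_zero] at hξn
    exact zero_ne_one hξn
  have heξ : e ξ = ξ := by
    rw [hξ, map_smul]
    congr 1
    show (e * e) v = e v
    rw [proj_mul_self hep]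
  set c : ℝ := (⟪ξ, a ξ⟫_ℂ).re with hc
  set b : H →L[ℂ] H := (c : ℂ) • e - a with hb
  have hbM : b ∈ M := sub_mem (smul_mem_M _ he.1.1) haM
  have hbs : IsSelfAdjoint b := by
    show star b = b
    rw [hb, star_sub, star_smul, proj_star hep, ha]
    simp
  have heb : e * b = b := by
    rw [hb, mul_sub, mul_smul_comm, proj_mul_self hep, hea]
  have hre : (⟪ξ, b ξ⟫_ℂ).re = 0 := by
    have e1 : ⟪ξ, b ξ⟫_ℂ = (c : ℂ) * ⟪ξ, e ξ⟫_ℂ - ⟪ξ, a ξ⟫_ℂ := by
      rw [hb]
      show ⟪ξ, (c : ℂ) • e ξ - a ξ⟫_ℂ = _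
      rw [inner_sub_right, inner_smul_right]
    rw [e1, heξ, inner_self_eq_norm_sq_to_K, hξn]
    simp [← hc]
  obtain ⟨P, N, hPM, hNM, hp0, hn0, hsum, hmul, hmul'⟩ : ∃ P N : H →L[ℂ] H, P ∈ M ∧ N ∈ M ∧
      0 ≤ P ∧ 0 ≤ N ∧ b = P - N ∧ P * N = 0 ∧ N * P = 0 :=
    ⟨b⁺, b⁻, posPart_mem hbM, negPart_mem hbM, CFC.posPart_nonneg b, CFC.negPart_nonneg b,
      (CFC.posPart_sub_negPart b hbs).symm, CFC.posPart_mul_negPart b, CFC.negPart_mul_posPart b⟩
  have hps : star P = P := hp0.isSelfAdjoint.star_eq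
  have hns : star N = N := hn0.isSelfAdjoint.star_eq
  -- e absorbs the positive and negative parts
  have abs_e : ∀ d : H →L[ℂ] H, star d = d → (∃ s, d * d = b * s) → e * d = d := by
    rintro d hds ⟨s, hs⟩
    have h1 : (1 - e) * (d * d) = 0 := by
      rw [hs, ← mul_assoc, sub_mul, heb, one_mul, sub_self, zero_mul]
    have h2 : star (d * (1 - e)) * (d * (1 - e)) = 0 := by
      rw [star_mul, star_sub, star_one, proj_star hep, hds]
      calc (1 - e) * d * (d * (1 - e)) = ((1 - e) * (d * d)) * (1 - e) := by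
            simp only [mul_assoc]
        _ = 0 := by rw [h1, zero_mul]
    have h3 : d * (1 - e) = 0 := CStarRing.star_mul_self_eq_zero_iff _ |>.1 h2
    have h4 : (1 - e) * d = 0 := by
      have := congrArg star h3
      rwa [star_mul, star_sub, star_one, proj_star hep, hds, star_zero] at this
    rw [sub_mul, one_mul, sub_eq_zero] at h4
    exact h4.symm
  have hep' : e * P = P := abs_e _ hps ⟨P, by rw [hsum, sub_mul, hmul', sub_zero]⟩
  have hen' : e * N = N := abs_e _ hns ⟨-N, by
    rw [hsum, sub_mul, mul_neg, hmul, neg_zero, zero_sub, mul_neg, neg_neg]⟩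
  have hb0 : b = 0 := by
    rcases he.2.2 (pjr P) (pjr_prm hPM) (mul_pjr_self hep') with h | h
    · have h1 : P = 0 := by rw [← pjr_mul P, h, zero_mul]
      have h2 : b = -N := by rw [hsum, h1, zero_sub]
      have h3 : N = 0 := by
        apply he.zero_of hNM hn0 hen' heξ hξ0
        rw [h2] at hre
        have h4 : ⟪ξ, (-N) ξ⟫_ℂ = -⟪ξ, N ξ⟫_ℂ := by
          rw [← inner_neg_right]; rfl
        rw [h4, Complex.neg_re] at hre
        linarith
      rw [h2, h3, neg_zero]
    · have h1 : N = 0 := by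
        have h2 : N * pjr P = 0 := mul_pjr_zero hmul'
        rw [h] at h2
        have h3 := congrArg star h2
        rw [star_mul, hns, proj_star hep, star_zero, hen'] at h3
        exact h3
      have h2 : b = P := by rw [hsum, h1, sub_zero]
      have h3 : P = 0 := by
        apply he.zero_of hPM hp0 hep' heξ hξ0
        rw [← h2]; exact hre
      rw [h2, h3]
  exact ⟨c, by rw [hb, sub_eq_zero] at hb0; exact hb0.symm⟩

lemma Mini.scalar {e x : H →L[ℂ] H} (he : Mini M e) (hx : x ∈ M) (h1 : e * x = x)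
    (h2 : x * e = x) : ∃ c : ℂ, x = c • e := by
  have hep := he.1.2
  have hsx : star x ∈ M := star_mem hx
  have h3 : e * star x = star x := by
    have := congrArg star h2
    rwa [star_mul, proj_star hep] at this
  obtain ⟨c1, hc1⟩ := he.scalar_sa (a := x + star x) (add_mem hx hsx)
    (by rw [star_add, star_star, add_comm]) (by rw [mul_add, h1, h3])
  obtain ⟨c2, hc2⟩ := he.scalar_sa (a := Complex.I • (x - star x))
    (smul_mem_M _ (sub_mem hx hsx))
    (by
      rw [star_smul, star_sub, star_star]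
      simp only [RCLike.star_def, Complex.conj_I, smul_sub, neg_smul]
      abel)
    (by rw [mul_smul_comm, mul_sub, h1, h3])
  refine ⟨(c1 - Complex.I * c2) / 2, ?_⟩
  have h4 : (2 : ℂ) • x = (c1 - Complex.I * c2) • e := by
    rw [sub_smul, ← hc1, mul_smul, ← hc2, smul_smul, Complex.I_mul_I, two_smul, neg_one_smul]
    abel
  rw [div_eq_inv_mul, mul_smul, ← h4, smul_smul, inv_mul_cancel₀ two_ne_zero, one_smul]

lemma mul_e_of {e v : H →L[ℂ] H} (he : IsStarProjection e) (h : star v * v = e) : v * e = v := by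
  have h2 : star (v * e - v) * (v * e - v) = 0 := by
    rw [star_sub, star_mul, proj_star he]
    calc (e * star v - star v) * (v * e - v)
        = e * (star v * v) * e - e * (star v * v) - (star v * v) * e + star v * v := by
          noncomm_ring
      _ = 0 := by
          rw [h, proj_mul_self he, proj_mul_self he]; abel
  have h3 := CStarRing.star_mul_self_eq_zero_iff _ |>.1 h2
  exact sub_eq_zero.1 h3

/-- a family of `N + 1` partial isometries with the same initial projection `e` and orthogonal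
ranges, the first one being `e` -/
def Fam (M : VonNeumannAlgebra H) (e : H →L[ℂ] H) (N : ℕ) (v : ℕ → H →L[ℂ] H) : Prop :=
  (∀ i < N + 1, v i ∈ M ∧ star (v i) * v i = e) ∧
    (∀ i < N + 1, ∀ j < N + 1, i ≠ j → star (v i) * v j = 0) ∧ v 0 = e

lemma Fam.proj {e : H →L[ℂ] H} {N : ℕ} {v : ℕ → H →L[ℂ] H} (he : IsStarProjection e)
    (h : Fam M e N v) : PrM M (∑ i ∈ Finset.range (N + 1), v i * star (v i)) ∧
      ∀ j < N + 1, (∑ i ∈ Finset.range (N + 1), v i * star (v i)) * v j = v j := by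
  have hj : ∀ j < N + 1, (∑ i ∈ Finset.range (N + 1), v i * star (v i)) * v j = v j := by
    intro j hj
    rw [Finset.sum_mul, Finset.sum_eq_single j]
    · rw [mul_assoc, (h.1 j hj).2, mul_e_of he (h.1 j hj).2]
    · intro i hi hij
      rw [mul_assoc, h.2.1 i (Finset.mem_range.1 hi) j hj hij, mul_zero]
    · intro hn
      exact absurd (Finset.mem_range.2 hj) hn
  refine ⟨⟨?_, ?_, ?_⟩, hj⟩
  · exact sum_mem fun i hi => mul_mem (h.1 i (Finset.mem_range.1 hi)).1
      (star_mem (h.1 i (Finset.mem_range.1 hi)).1)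
  · show (∑ i ∈ Finset.range (N + 1), v i * star (v i)) *
      (∑ i ∈ Finset.range (N + 1), v i * star (v i)) = _
    conv_lhs => rw [Finset.mul_sum]
    apply Finset.sum_congr rfl
    intro j hj'
    rw [← mul_assoc, hj j (Finset.mem_range.1 hj')]
  · show star _ = _
    rw [star_sum]
    apply Finset.sum_congr rfl
    intro i _
    rw [star_mul, star_star]

lemma Fam.step (hN : NoFiniteSummand M) {e : H →L[ℂ] H} (he : Mini M e) {N : ℕ}
    {v : ℕ → H →L[ℂ] H} (h : Fam M e N v) : ∃ w, Fam M e (N + 1) w := by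
  classical
  have hep := he.1.2
  obtain ⟨hPM, hPv⟩ := h.proj hep
  set P := ∑ i ∈ Finset.range (N + 1), v i * star (v i) with hP
  have hPs : star P = P := proj_star hPM.2
  by_cases hy : ∃ y ∈ M, (1 - P) * y * e ≠ 0
  · obtain ⟨y, hy, hye⟩ := hy
    set x := (1 - P) * y * e with hx
    have hxM : x ∈ M := mul_mem (mul_mem (sub_mem (one_mem M) hPM.1) hy) he.1.1
    have hxe : x * e = x := by rw [hx, mul_assoc, proj_mul_self hep]
    have hex : e * star x = star x := by
      have := congrArg star hxe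
      rwa [star_mul, proj_star hep] at this
    obtain ⟨c, hc⟩ := he.scalar (x := star x * x) (mul_mem (star_mem hxM) hxM)
      (by rw [← mul_assoc, hex]) (by rw [mul_assoc, hxe])
    have hPx : P * x = 0 := by
      rw [hx, ← mul_assoc, ← mul_assoc, mul_sub, mul_one, proj_mul_self hPM.2, sub_self, zero_mul,
        zero_mul]
    -- c is a positive real number
    have hnn : 0 ≤ star x * x := star_mul_self_nonneg x
    have hne : star x * x ≠ 0 := fun h0 => hye (CStarRing.star_mul_self_eq_zero_iff _ |>.1 h0)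
    have hn1 : ‖star x * x‖ ≠ 0 := norm_ne_zero_iff.2 hne
    have hcr : ∃ r : ℝ, 0 < r ∧ c = r := by
      obtain ⟨ξ, hξ⟩ : ∃ ξ, e ξ ≠ 0 := by
        by_contra hcc
        push Not at hcc
        exact he.2.1 (by ext v; simpa using hcc v)
      have e1 : ⟪e ξ, (star x * x) (e ξ)⟫_ℂ = ((‖x (e ξ)‖ ^ 2 : ℝ) : ℂ) := by
        show ⟪e ξ, star x (x (e ξ))⟫_ℂ = _
        rw [ContinuousLinearMap.star_eq_adjoint, ContinuousLinearMap.adjoint_inner_right,
          inner_self_eq_norm_sq_to_K]
        push_cast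
        rfl
      have e2 : ⟪e ξ, (star x * x) (e ξ)⟫_ℂ = c * ((‖e ξ‖ ^ 2 : ℝ) : ℂ) := by
        rw [hc]
        show ⟪e ξ, c • (e (e ξ))⟫_ℂ = _
        have : e (e ξ) = e ξ := by
          show (e * e) ξ = e ξ
          rw [proj_mul_self hep]
        rw [this, inner_smul_right, inner_self_eq_norm_sq_to_K]
        push_cast
        rfl
      have hpos : (0 : ℝ) < ‖e ξ‖ ^ 2 := by positivity
      have e3 : c = ((‖x (e ξ)‖ ^ 2 / ‖e ξ‖ ^ 2 : ℝ) : ℂ) := by
        rw [Complex.ofReal_div, ← e1, e2]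
        rw [mul_div_assoc, div_self (by exact_mod_cast hpos.ne'), mul_one]
      refine ⟨_, ?_, e3⟩
      have hc0 : c ≠ 0 := by
        intro h0
        rw [h0, zero_smul] at hc
        exact hne hc
      rcases (div_nonneg (sq_nonneg ‖x (e ξ)‖) hpos.le).lt_or_eq with h5 | h5
      · exact h5
      · exfalso
        apply hc0
        rw [e3, ← h5]
        simp
    obtain ⟨r, hr0, hcr⟩ := hcr
    set t : ℝ := (Real.sqrt r)⁻¹ with ht
    have ht2 : t * t * r = 1 := by
      rw [ht, ← mul_inv, Real.mul_self_sqrt hr0.le, inv_mul_cancel₀ hr0.ne']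
    set w : H →L[ℂ] H := (t : ℂ) • x with hw
    have hwM : w ∈ M := smul_mem_M _ hxM
    have hww : star w * w = e := by
      rw [hw, star_smul, smul_mul_smul_comm, hc, smul_smul, hcr]
      have : star (t : ℂ) * (t : ℂ) * (r : ℂ) = 1 := by
        rw [RCLike.star_def, Complex.conj_ofReal]
        exact_mod_cast ht2
      rw [this, one_smul]
    have hPw : P * w = 0 := by rw [hw, mul_smul_comm, hPx, smul_zero]
    have hvw : ∀ j < N + 1, star (v j) * w = 0 := by
      intro j hj
      have h1 : star (v j) * P = star (v j) := by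
        have := congrArg star (hPv j hj)
        rwa [star_mul, hPs] at this
      rw [← h1, mul_assoc, hPw, mul_zero]
    refine ⟨Function.update v (N + 1) w, ?_, ?_, ?_⟩
    · intro i hi
      rcases Nat.lt_succ_iff_lt_or_eq.1 hi with h1 | h1
      · rw [Function.update_of_ne h1.ne]
        exact h.1 i h1
      · subst h1
        rw [Function.update_self]
        exact ⟨hwM, hww⟩
    · intro i hi j hj hij
      rcases Nat.lt_succ_iff_lt_or_eq.1 hi with h1 | h1 <;>
      rcases Nat.lt_succ_iff_lt_or_eq.1 hj with h2 | h2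
      · rw [Function.update_of_ne h1.ne, Function.update_of_ne h2.ne]
        exact h.2.1 i h1 j h2 hij
      · subst h2
        rw [Function.update_of_ne h1.ne, Function.update_self]
        exact hvw i h1
      · subst h1
        rw [Function.update_of_ne h2.ne, Function.update_self]
        have := congrArg star (hvw j h2)
        rwa [star_mul, star_star, star_zero] at this
      · omega
    · rw [Function.update_of_ne (by omega)]
      exact h.2.2
  · exfalso
    push Not at hy
    -- P is central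
    have hPy : ∀ y ∈ M, y * P = P * y * P := by
      intro y hyM
      have h1 : ∀ i < N + 1, (1 - P) * (y * (v i * star (v i))) = 0 := by
        intro i hi
        have h2 := hy (y * v i) (mul_mem hyM (h.1 i hi).1)
        have h3 : (1 - P) * (y * (v i * star (v i))) = ((1 - P) * (y * v i) * e) * star (v i) := by
          have h4 : v i * star (v i) = v i * e * star (v i) := by
            rw [mul_e_of hep (h.1 i hi).2]
          rw [h4]
          simp only [mul_assoc]
        rw [h3, h2, zero_mul]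
      have h5 : (1 - P) * (y * P) = 0 := by
        conv_lhs => rw [hP, Finset.mul_sum, Finset.mul_sum]
        rw [← hP]
        exact Finset.sum_eq_zero fun i hi => h1 i (Finset.mem_range.1 hi)
      rw [sub_mul, one_mul, sub_eq_zero] at h5
      rw [mul_assoc]; exact h5
    have hcen : ∀ y ∈ M, P * y = y * P := by
      intro y hyM
      have h1 := congrArg star (hPy (star y) (star_mem hyM))
      rw [star_mul, star_mul, star_mul, star_star, hPs] at h1
      rw [h1, ← mul_assoc]
      exact (hPy y hyM).symm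
    have hP0 : P = 0 := by
      apply hN P hPM.1 hPM.2 hcen
      -- finite dimensional
      have hfin : (Submodule.span ℂ {y : H →L[ℂ] H | ∃ x ∈ M, y = P * x}) ≤
          Submodule.span ℂ ((fun q : ℕ × ℕ => v q.1 * star (v q.2)) ''
            ((Finset.range (N + 1) ×ˢ Finset.range (N + 1) : Finset (ℕ × ℕ)) : Set (ℕ × ℕ))) := by
        rw [Submodule.span_le]
        rintro _ ⟨x, hx, rfl⟩
        have e1 : P * x = ∑ i ∈ Finset.range (N + 1), ∑ j ∈ Finset.range (N + 1),
            v i * (star (v i) * x * v j) * star (v j) := by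
          have e2 : P * x = P * x * P := by
            rw [mul_assoc, ← hcen x hx, ← mul_assoc, proj_mul_self hPM.2]
          rw [e2]
          conv_lhs => rw [hP]
          rw [Finset.sum_mul, Finset.sum_mul]
          apply Finset.sum_congr rfl
          intro i _
          rw [Finset.mul_sum]
          apply Finset.sum_congr rfl
          intro j _
          simp only [mul_assoc]
        show P * x ∈ _
        rw [e1]
        apply Submodule.sum_mem
        intro i hi
        apply Submodule.sum_mem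
        intro j hj
        have hi' := Finset.mem_range.1 hi
        have hj' := Finset.mem_range.1 hj
        obtain ⟨c, hc⟩ := he.scalar (x := star (v i) * x * v j)
          (mul_mem (mul_mem (star_mem (h.1 i hi').1) hx) (h.1 j hj').1)
          (by
            have h1 : e * star (v i) = star (v i) := by
              have := congrArg star (mul_e_of hep (h.1 i hi').2)
              rwa [star_mul, proj_star hep] at this
            rw [← mul_assoc, ← mul_assoc, h1])
          (by rw [mul_assoc, mul_e_of hep (h.1 j hj').2])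
        rw [hc, mul_smul_comm, smul_mul_assoc, mul_e_of hep (h.1 i hi').2]
        apply Submodule.smul_mem
        apply Submodule.subset_span
        exact ⟨(i, j), by simp [hi', hj'], rfl⟩
      have hfd : FiniteDimensional ℂ (Submodule.span ℂ
          ((fun q : ℕ × ℕ => v q.1 * star (v q.2)) ''
            ((Finset.range (N + 1) ×ˢ Finset.range (N + 1) : Finset (ℕ × ℕ)) : Set (ℕ × ℕ)))) :=
        FiniteDimensional.span_of_finite ℂ ((Finset.finite_toSet _).image _)
      exact Submodule.finiteDimensional_of_le hfin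
    have hPe : P * e = e := by
      have := hPv 0 (by omega)
      rwa [h.2.2] at this
    rw [hP0, zero_mul] at hPe
    exact he.2.1 hPe.symm

lemma Fam.exist (hN : NoFiniteSummand M) {e : H →L[ℂ] H} (he : Mini M e) (N : ℕ) :
    ∃ v, Fam M e N v := by
  induction N with
  | zero =>
    refine ⟨fun _ => e, ?_, ?_, rfl⟩
    · intro i _
      exact ⟨he.1.1, by rw [proj_star he.1.2, proj_mul_self he.1.2]⟩
    · intro i hi j hj hij
      omega
  | succ N ih =>
    obtain ⟨v, hv⟩ := ih
    exact hv.step hN he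

/-- minimal projections satisfy the density property -/
lemma Dp.of_mini (hN : NoFiniteSummand M) {e : H →L[ℂ] H} (he : Mini M e) : Dp M e := by
  classical
  have hep := he.1.2
  intro c hc0 hc1 F δ hδ
  set B : ℝ := ∑ ξ ∈ F, ‖ξ‖ ^ 2 with hB
  have hB0 : 0 ≤ B := Finset.sum_nonneg fun _ _ => sq_nonneg _
  -- a small projection equivalent to e
  obtain ⟨N, hNb⟩ := exists_nat_gt (9 * (B + 1) * (B + 1) / δ ^ 2)
  obtain ⟨v, hv⟩ := Fam.exist hN he (N + 1)
  obtain ⟨hPM, hPv⟩ := hv.proj hep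
  have hqp : ∀ i < N + 2, IsStarProjection (v i * star (v i)) := by
    intro i hi
    refine ⟨?_, ?_⟩
    · show v i * star (v i) * (v i * star (v i)) = _
      rw [mul_assoc, ← mul_assoc (star (v i)), (hv.1 i hi).2, ← mul_assoc,
        mul_e_of hep (hv.1 i hi).2]
    · show star _ = _
      rw [star_mul, star_star]
  obtain ⟨k, hk1, hk2, hk3⟩ : ∃ k, 1 ≤ k ∧ k < N + 2 ∧
      ∑ ξ ∈ F, ‖(v k * star (v k)) ξ‖ ^ 2 ≤ B / (N + 1) := by
    by_contra hcon
    push Not at hcon
    have h1 : ∑ i ∈ Finset.range (N + 2), ∑ ξ ∈ F, ‖(v i * star (v i)) ξ‖ ^ 2 ≤ B := by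
      rw [Finset.sum_comm]
      apply Finset.sum_le_sum
      intro ξ _
      have h2 : ∀ i ∈ Finset.range (N + 2), ‖(v i * star (v i)) ξ‖ ^ 2
          = (⟪ξ, (v i * star (v i)) ξ⟫_ℂ).re := by
        intro i hi
        have hi' := Finset.mem_range.1 hi
        rw [inner_proj_proj (hqp i hi'), inner_self_eq_norm_sq_to_K]
        exact (Complex.ofReal_re (‖(v i * star (v i)) ξ‖ ^ 2) ▸ by push_cast; rfl)
      rw [Finset.sum_congr rfl h2, ← Complex.re_sum, ← inner_sum]
      have h3 : ∑ i ∈ Finset.range (N + 2), (v i * star (v i)) ξ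
          = (∑ i ∈ Finset.range (N + 2), v i * star (v i)) ξ := by
        rw [sum_apply]
      rw [h3]
      have h4 := norm_proj_apply_le hPM.2 ξ
      calc _ ≤ ‖⟪ξ, (∑ i ∈ Finset.range (N + 1 + 1), v i * star (v i)) ξ⟫_ℂ‖ :=
            Complex.re_le_norm _
        _ ≤ ‖ξ‖ * ‖ξ‖ := (norm_inner_le_norm _ _).trans
            (mul_le_mul_of_nonneg_left h4 (norm_nonneg _))
        _ = ‖ξ‖ ^ 2 := by ring
    have h5 : ∑ i ∈ Finset.range (N + 2), ∑ ξ ∈ F, ‖(v i * star (v i)) ξ‖ ^ 2 ≥
        ∑ i ∈ Finset.Ico 1 (N + 2), ∑ ξ ∈ F, ‖(v i * star (v i)) ξ‖ ^ 2 := by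
      apply Finset.sum_le_sum_of_subset_of_nonneg
      · intro i hi
        rw [Finset.mem_Ico] at hi
        exact Finset.mem_range.2 hi.2
      · intro i _ _
        exact Finset.sum_nonneg fun _ _ => sq_nonneg _
    have h6 : ∑ i ∈ Finset.Ico 1 (N + 2), ∑ ξ ∈ F, ‖(v i * star (v i)) ξ‖ ^ 2 >
        ∑ i ∈ Finset.Ico 1 (N + 2), B / (N + 1) := by
      apply Finset.sum_lt_sum_of_nonempty
      · exact ⟨1, by rw [Finset.mem_Ico]; omega⟩
      · intro i hi
        rw [Finset.mem_Ico] at hi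
        exact hcon i hi.1 hi.2
    have h7 : ∑ i ∈ Finset.Ico 1 (N + 2), B / ((N : ℝ) + 1) = B := by
      rw [Finset.sum_const, Nat.card_Ico, nsmul_eq_mul]
      have : ((N + 2 - 1 : ℕ) : ℝ) = (N : ℝ) + 1 := by
        have : N + 2 - 1 = N + 1 := by omega
        rw [this]; push_cast; ring
      rw [this]
      field_simp
    rw [h7] at h6
    linarith
  set w := v k with hw
  set q := w * star w with hq
  have hqP : IsStarProjection q := hqp k hk2
  have hwM : w ∈ M := (hv.1 k hk2).1
  have hww : star w * w = e := (hv.1 k hk2).2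
  have hwe : w * e = w := mul_e_of hep hww
  have hews : e * star w = star w := by
    have := congrArg star hwe
    rwa [star_mul, proj_star hep] at this
  have hew : e * w = 0 := by
    have := hv.2.1 0 (by omega) k hk2 (by omega)
    rwa [hv.2.2, proj_star hep] at this
  have hwse : star w * e = 0 := by
    have := congrArg star hew
    rwa [star_mul, proj_star hep, star_zero] at this
  have hw2 : w * w = 0 := by
    calc w * w = (w * e) * w := by rw [hwe]
      _ = 0 := by rw [mul_assoc, hew, mul_zero]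
  have hws2 : star w * star w = 0 := by
    have := congrArg star hw2
    rwa [star_mul, star_zero] at this
  have hqM : q ∈ M := mul_mem hwM (star_mem hwM)
  have hqw : q * w = w := by rw [hq, mul_assoc, hww, hwe]
  have hwsq : star w * q = star w := by
    have := congrArg star hqw
    rwa [star_mul, proj_star hqP] at this
  have hqe : q * e = 0 := by rw [hq, mul_assoc, hwse, mul_zero]
  have heq : e * q = 0 := orth_symm hep hqP hqe
  have hwq : w * q = 0 := by rw [hq, ← mul_assoc, hw2, zero_mul]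
  have hqws : q * star w = 0 := by rw [hq, mul_assoc, hws2, mul_zero]
  have hee := proj_mul_self hep
  have hqq := proj_mul_self hqP
  set s : ℝ := Real.sqrt (1 - c ^ 2) with hs
  have hs2 : s ^ 2 = 1 - c ^ 2 := Real.sq_sqrt (by nlinarith)
  have hs0 : 0 ≤ s := Real.sqrt_nonneg _
  have hs1 : s ≤ 1 := by nlinarith [sq_nonneg c]
  have hcs : (c : ℂ) * c + (s : ℂ) * s = 1 := by
    have : c * c + s * s = 1 := by nlinarith
    exact_mod_cast this
  have hprod : ∀ x y : ℂ, x * x + y * y = 1 →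
      (1 - e - q + x • (e + q) + y • (star w - w)) *
      (1 - e - q + x • (e + q) + y • (w - star w)) = 1 := by
    intro x y hxy
    have e1 : (1 - e - q + x • (e + q) + y • (star w - w)) *
      (1 - e - q + x • (e + q) + y • (w - star w)) = 1 + (x * x + y * y - 1) • (e + q) := by
      simp only [add_mul, sub_mul, mul_add, mul_sub, one_mul, mul_one, mul_smul_comm,
        smul_mul_assoc, hee, hqq, hqe, heq, hew, hwe, hwse, hews, hqw, hwsq, hwq, hqws, hw2, hws2,
        hww, ← hq, sub_zero, zero_sub, add_zero, zero_add]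
      module
    rw [e1, hxy, sub_self, zero_smul, add_zero]
  set u : H →L[ℂ] H := 1 - e - q + (c : ℂ) • (e + q) + (s : ℂ) • (w - star w) with hu
  have hsu : star u = 1 - e - q + (c : ℂ) • (e + q) + (s : ℂ) • (star w - w) := by
    rw [hu]
    simp only [star_add, star_sub, star_one, proj_star hep, proj_star hqP, star_smul, star_star,
      RCLike.star_def, Complex.conj_ofReal]
  have huM : u ∈ M := by
    rw [hu]
    exact add_mem (add_mem (sub_mem (sub_mem (one_mem M) he.1.1) hqM)
      (smul_mem_M _ (add_mem he.1.1 hqM))) (smul_mem_M _ (sub_mem hwM (star_mem hwM)))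
  refine ⟨u, huM, ?_, ?_, ?_⟩
  · rw [hsu, hu]; exact hprod _ _ hcs
  · rw [hsu, hu]
    have h1 := hprod (c : ℂ) (-(s : ℂ)) (by rw [neg_mul_neg]; exact hcs)
    have e1 : (-(s : ℂ)) • (star w - w) = (s : ℂ) • (w - star w) := by module
    have e2 : (-(s : ℂ)) • (w - star w) = (s : ℂ) • (star w - w) := by module
    rwa [e1, e2] at h1
  · intro ξ hξ η hη
    have hsmall : ∀ ζ ∈ F, ‖q ζ‖ ≤ Real.sqrt (B / (N + 1)) := by
      intro ζ hζ
      apply Real.le_sqrt_of_sq_le
      refine le_trans ?_ hk3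
      exact Finset.single_le_sum (f := fun ξ => ‖q ξ‖ ^ 2) (fun _ _ => sq_nonneg _) hζ
    have hbd : ∀ ζ ∈ F, ‖ζ‖ ≤ Real.sqrt B := by
      intro ζ hζ
      apply Real.le_sqrt_of_sq_le
      exact Finset.single_le_sum (f := fun ξ => ‖ξ‖ ^ 2) (fun _ _ => sq_nonneg _) hζ
    have hwn : ∀ ζ : H, ‖w ζ‖ ≤ ‖ζ‖ := by
      intro ζ
      have h1 : ⟪w ζ, w ζ⟫_ℂ = ⟪e ζ, e ζ⟫_ℂ := by
        rw [← inner_proj_proj hep, ← hww]
        show _ = ⟪ζ, star w (w ζ)⟫_ℂ
        rw [ContinuousLinearMap.star_eq_adjoint, ContinuousLinearMap.adjoint_inner_right]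
      rw [inner_self_eq_norm_sq_to_K, inner_self_eq_norm_sq_to_K] at h1
      have h2 : ‖w ζ‖ ^ 2 = ‖e ζ‖ ^ 2 := by exact_mod_cast h1
      have h3 : ‖w ζ‖ = ‖e ζ‖ := by
        rwa [sq_eq_sq₀ (norm_nonneg _) (norm_nonneg _)] at h2
      rw [h3]
      exact norm_proj_apply_le hep ζ
    set T : ℝ := Real.sqrt B * Real.sqrt (B / (N + 1)) with hT
    have hT0 : 0 ≤ T := mul_nonneg (Real.sqrt_nonneg _) (Real.sqrt_nonneg _)
    have b1 : ‖⟪η, q ξ⟫_ℂ‖ ≤ T := (norm_inner_le_norm _ _).trans
      (mul_le_mul (hbd η hη) (hsmall ξ hξ) (norm_nonneg _) (Real.sqrt_nonneg _))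
    have b2 : ‖⟪η, w ξ⟫_ℂ‖ ≤ T := by
      have h1 : ⟪η, w ξ⟫_ℂ = ⟪q η, w ξ⟫_ℂ := by
        rw [inner_proj hqP]
        congr 1
        show w ξ = (q * w) ξ
        rw [hqw]
      rw [h1, hT, mul_comm]
      exact (norm_inner_le_norm _ _).trans
        (mul_le_mul (hsmall η hη) ((hwn ξ).trans (hbd ξ hξ)) (norm_nonneg _) (Real.sqrt_nonneg _))
    have b3 : ‖⟪η, (star w) ξ⟫_ℂ‖ ≤ T := by
      have h1 : ⟪η, (star w) ξ⟫_ℂ = ⟪w η, q ξ⟫_ℂ := by
        rw [← inner_proj hqP]
        have h2 : q (w η) = w η := by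
          show (q * w) η = w η
          rw [hqw]
        rw [h2, ContinuousLinearMap.star_eq_adjoint, ContinuousLinearMap.adjoint_inner_right]
      rw [h1, hT]
      exact (norm_inner_le_norm _ _).trans
        (mul_le_mul ((hwn η).trans (hbd η hη)) (hsmall ξ hξ) (norm_nonneg _) (Real.sqrt_nonneg _))
    have e1 : (u - (1 - e + (c : ℂ) • e)) ξ
        = (-((1 - c : ℝ) : ℂ)) • q ξ + ((s : ℂ) • w ξ + (-(s : ℂ)) • (star w) ξ) := by
      rw [hu]
      simp only [sub_apply, add_apply, smul_apply, one_apply_eq_self]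
      push_cast
      module
    rw [e1, inner_add_right, inner_add_right, inner_smul_right, inner_smul_right, inner_smul_right]
    have hn1 : ‖(-((1 - c : ℝ) : ℂ))‖ ≤ 1 := by
      rw [norm_neg, Complex.norm_real, Real.norm_eq_abs, abs_of_nonneg (by linarith)]
      linarith
    have hn2 : ‖(s : ℂ)‖ ≤ 1 := by
      rw [Complex.norm_real, Real.norm_eq_abs, abs_of_nonneg hs0]
      exact hs1
    have hn3 : ‖(-(s : ℂ))‖ ≤ 1 := by rw [norm_neg]; exact hn2
    have m : ∀ (x y : ℂ), ‖x‖ ≤ 1 → ‖y‖ ≤ T → ‖x * y‖ ≤ T := by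
      intro x y hx hy
      rw [norm_mul]
      calc ‖x‖ * ‖y‖ ≤ 1 * T := mul_le_mul hx hy (norm_nonneg _) zero_le_one
        _ = T := one_mul _
    have htot := (norm_add_le _ _).trans (add_le_add (m _ _ hn1 b1)
      ((norm_add_le _ _).trans (add_le_add (m _ _ hn2 b2) (m _ _ hn3 b3))))
    refine lt_of_le_of_lt htot ?_
    -- the numerical estimate
    have hN1 : (0 : ℝ) < N + 1 := by positivity
    have hT2 : T ^ 2 = B * (B / (N + 1)) := by
      rw [hT, mul_pow, Real.sq_sqrt hB0, Real.sq_sqrt (by positivity)]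
    have hT3 : (3 * T) ^ 2 < δ ^ 2 := by
      rw [mul_pow, hT2]
      have h1 : 9 * (B + 1) * (B + 1) < N * δ ^ 2 := by
        rwa [div_lt_iff₀ (by positivity)] at hNb
      have h2 : (3 : ℝ) ^ 2 * (B * (B / (N + 1))) = 9 * B * B / (N + 1) := by ring
      rw [h2, div_lt_iff₀ hN1]
      nlinarith [sq_nonneg δ]
    have hT4 : 3 * T < δ := lt_of_pow_lt_pow_left₀ 2 hδ.le hT3
    linarith

/-- every projection satisfies the density property -/
theorem Dp.all (hN : NoFiniteSummand M) {p : H →L[ℂ] H} (hp : PrM M p) : Dp M p := by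
  apply exhaust hp (Dp M) Dp.zero
  · intro r s hr hs hrs h1 h2
    exact Dp.add hr hs hrs h1 h2
  · intro C P hC _ _ hap
    exact Dp.chain hC hap
  · intro r hr _ hr0
    by_cases hm : ∃ e, Mini M e ∧ r * e = e
    · obtain ⟨e, he, hre⟩ := hm
      exact ⟨e, he.1, hre, he.2.1, Dp.of_mini hN he⟩
    · push Not at hm
      exact ⟨r, hr, proj_mul_self hr.2, hr0,
        Dp.of_spl hr fun F ε hε => spl_of_diffuse hr hm F hε⟩

end Pool.Agent.Helper97.Resid
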