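import Mathlib
import Pool.Agent.Helper97.Resid.Mini

/-!
# All contractions are weak limits of unitaries
-/

set_option linter.unusedSectionVars false
set_option linter.unusedSimpArgs false

open scoped InnerProductSpace ENNReal

universe u

namespace Pool.Agent.Helper97.Resid

variable {H : Type u} [NormedAddCommGroup H] [InnerProductSpace ℂ H] [CompleteSpace H]
  {M : VonNeumannAlgebra H}

lemma rsmul_mem_M {x : H →L[ℂ] H} (c : ℝ) (hx : x ∈ M) : c • x ∈ M := by
  have h : ((c : ℂ)) • x = c • x := by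
    ext v
    simp
  rw [← h]
  exact smul_mem_M _ hx

lemma pos_step (hN : NoFiniteSummand M) {c : ℝ} (hc0 : 0 < c) (hc1 : c < 1) (n : ℕ) :
    ∀ a ∈ M, (c ^ (n + 1)) • (1 : H →L[ℂ] H) ≤ a → a ≤ 1 → ∃ k, InK M k ∧ ‖k - a‖ ≤ 1 - c := by
  induction n with
  | zero =>
    intro a ha h1 h2
    refine ⟨1, InK.one, ?_⟩
    rw [CStarAlgebra.norm_le_iff_le_algebraMap _ (by linarith) (sub_nonneg.2 h2),
      Algebra.algebraMap_eq_smul_one, sub_smul, one_smul]
    rw [zero_add, pow_one] at h1
    exact sub_le_sub_left h1 1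
  | succ n ih =>
    intro a ha h1 h2
    have hcn : 0 < c ^ (n + 1) := pow_pos hc0 _
    have hcn1 : c ^ (n + 1) ≤ c := by
      have := pow_le_of_le_one hc0.le hc1.le (n := n + 1) (by omega)
      exact this
    have has : IsSelfAdjoint a := by
      have h3 : 0 ≤ a := le_trans (smul_nonneg (pow_pos hc0 _).le zero_le_one) h1
      exact h3.isSelfAdjoint
    set b : H →L[ℂ] H := c • 1 - a with hb
    have hbM : b ∈ M := sub_mem (rsmul_mem_M c (one_mem M)) ha
    have hbs : IsSelfAdjoint b := by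
      show star b = b
      rw [hb, star_sub, star_smul, star_one, has.star_eq]
      simp
    obtain ⟨P, N, hPM, hNM, hp0, hn0, hsum, hmul, hmul'⟩ : ∃ P N : H →L[ℂ] H, P ∈ M ∧ N ∈ M ∧
        0 ≤ P ∧ 0 ≤ N ∧ b = P - N ∧ P * N = 0 ∧ N * P = 0 :=
      ⟨b⁺, b⁻, posPart_mem hbM, negPart_mem hbM, CFC.posPart_nonneg b, CFC.negPart_nonneg b,
        (CFC.posPart_sub_negPart b hbs).symm, CFC.posPart_mul_negPart b, CFC.negPart_mul_posPart b⟩
    have hps : star P = P := hp0.isSelfAdjoint.star_eq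
    have hns : star N = N := hn0.isSelfAdjoint.star_eq
    set q := pjr P with hq
    have hqM : PrM M q := pjr_prm hPM
    have hqs : star q = q := proj_star hqM.2
    have hqq : q * q = q := proj_mul_self hqM.2
    have hqP : q * P = P := pjr_mul P
    have hPq : P * q = P := by
      have := congrArg star hqP
      rwa [star_mul, hqs, hps] at this
    have hNq : N * q = 0 := mul_pjr_zero hmul'
    have hqN : q * N = 0 := by
      have := congrArg star hNq
      rwa [star_mul, hqs, hns, star_zero] at this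
    have haPN : a = c • 1 - P + N := by
      have : a = c • 1 - b := by rw [hb]; abel
      rw [this, hsum]; abel
    have hr : IsStarProjection (1 - q) := hqM.2.one_sub
    have hrs : star (1 - q) = 1 - q := proj_star hr
    -- the three inequalities
    have i1 : 0 ≤ (c - c ^ (n + 2)) • q - P := by
      have h3 : 0 ≤ star q * (a - (c ^ (n + 1 + 1)) • 1) * q :=
        star_left_conjugate_nonneg (sub_nonneg.2 h1) q
      have h4 : star q * (a - (c ^ (n + 1 + 1)) • 1) * q = (c - c ^ (n + 2)) • q - P := by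
        rw [hqs, haPN]
        simp only [mul_add, mul_sub, add_mul, sub_mul, mul_smul_comm, smul_mul_assoc, mul_one,
          hqq, hqP, hPq, hqN, zero_mul, add_zero, sub_smul]
        abel
      rwa [h4] at h3
    have i2 : 0 ≤ (1 - c) • (1 - q) - N := by
      have h3 : 0 ≤ star (1 - q) * (1 - a) * (1 - q) :=
        star_left_conjugate_nonneg (sub_nonneg.2 h2) (1 - q)
      have h4 : star (1 - q) * (1 - a) * (1 - q) = (1 - c) • (1 - q) - N := by
        rw [hrs, haPN]
        simp only [mul_add, mul_sub, add_mul, sub_mul, mul_smul_comm, smul_mul_assoc, mul_one,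
          one_mul, hqq, hqP, hPq, hqN, hNq, zero_mul, add_zero, sub_zero, zero_sub, sub_smul,
          smul_sub, one_smul, sub_self, smul_zero]
        abel
      rwa [h4] at h3
    have i3 : (0 : H →L[ℂ] H) ≤ 1 - q := hr.nonneg
    set a' : H →L[ℂ] H := c • (1 - q) + N + q - c⁻¹ • P with ha'
    have hinv : c⁻¹ * c = 1 := inv_mul_cancel₀ hc0.ne'
    obtain ⟨k, hk, hk2⟩ := ih a'
      (sub_mem (add_mem (add_mem (rsmul_mem_M _ (sub_mem (one_mem M) hqM.1)) hNM) hqM.1)
        (rsmul_mem_M _ hPM))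
      (by
        rw [← sub_nonneg]
        have e1 : a' - c ^ (n + 1) • (1 : H →L[ℂ] H) = (c - c ^ (n + 1)) • (1 - q) + N +
            c⁻¹ • ((c - c ^ (n + 2)) • q - P) := by
          rw [ha', smul_sub c⁻¹, smul_smul]
          have : c⁻¹ * (c - c ^ (n + 2)) = 1 - c ^ (n + 1) := by
            rw [pow_succ c (n + 1)]
            field_simp
          rw [this]
          module
        rw [e1]
        exact add_nonneg (add_nonneg (smul_nonneg (by linarith) i3) hn0)
          (smul_nonneg (inv_nonneg.2 hc0.le) i1))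
      (by
        rw [← sub_nonneg]
        have e1 : 1 - a' = ((1 - c) • (1 - q) - N) + c⁻¹ • P := by
          rw [ha']; module
        rw [e1]
        exact add_nonneg i2 (smul_nonneg (inv_nonneg.2 hc0.le) hp0))
    have hDp := Dp.all hN hqM c hc0.le hc1.le
    have hcc : ((c : ℂ)) • q = c • q := by
      ext v
      simp
    rw [hcc] at hDp
    refine ⟨(1 - q + c • q) * k, hDp.mul hk, ?_⟩
    have e2 : a = (1 - q + c • q) * a' := by
      rw [ha', haPN]
      simp only [mul_add, mul_sub, add_mul, sub_mul, mul_smul_comm, smul_mul_assoc, mul_one,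
          one_mul, hqq, hqP, hPq, hqN, hNq, zero_mul, add_zero, sub_zero, zero_sub, sub_smul,
          smul_sub, one_smul, sub_self, smul_zero, smul_add, smul_smul]
      match_scalars <;> field_simp <;> ring
    have e3 : ‖(1 - q + c • q : H →L[ℂ] H)‖ ≤ 1 := by
      have h4 : (1 - q + c • q : H →L[ℂ] H) = 1 - (1 - c) • q := by module
      have h5 : (0 : H →L[ℂ] H) ≤ 1 - q + c • q :=
        add_nonneg i3 (smul_nonneg hc0.le hqM.2.nonneg)
      rw [CStarAlgebra.norm_le_one_iff_of_nonneg _ h5, h4]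
      exact sub_le_self _ (smul_nonneg (by linarith) hqM.2.nonneg)
    conv_lhs => rw [e2, ← mul_sub]
    calc _ ≤ ‖(1 - q + c • q : H →L[ℂ] H)‖ * ‖k - a'‖ := norm_mul_le _ _
      _ ≤ 1 * (1 - c) := mul_le_mul e3 hk2 (norm_nonneg _) zero_le_one
      _ = 1 - c := one_mul _

lemma InK.of_pos (hN : NoFiniteSummand M) {a : H →L[ℂ] H} (ha : a ∈ M) {δ : ℝ} (hδ : 0 < δ)
    (h1 : δ • (1 : H →L[ℂ] H) ≤ a) (h2 : a ≤ 1) : InK M a := by
  apply InK.of_norm
  intro ε hε
  set c : ℝ := 1 - min ε (1 / 2) with hc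
  have hm0 : 0 < min ε (1 / 2) := lt_min hε (by norm_num)
  have hm1 : min ε (1 / 2) ≤ 1 / 2 := min_le_right _ _
  have hc0 : 0 < c := by rw [hc]; linarith
  have hc1 : c < 1 := by rw [hc]; linarith
  obtain ⟨n, hn⟩ := exists_pow_lt_of_lt_one hδ hc1
  have hn1 : c ^ (n + 1) ≤ δ := by
    rw [pow_succ]
    have := pow_pos hc0 n
    nlinarith
  have h3 : (c ^ (n + 1)) • (1 : H →L[ℂ] H) ≤ a := by
    refine le_trans ?_ h1
    exact smul_le_smul_of_nonneg_right hn1 zero_le_one
  obtain ⟨k, hk, hk2⟩ := pos_step hN hc0 hc1 n a ha h3 h2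
  refine ⟨k, hk, hk2.trans ?_⟩
  rw [hc]
  have := min_le_left ε (1 / 2)
  linarith

lemma InK.of_unit (hN : NoFiniteSummand M) {y : H →L[ℂ] H} (hy : y ∈ M) (hu : IsUnit y)
    (h1 : ‖y‖ ≤ 1) : InK M y := by
  rcases subsingleton_or_nontrivial (H →L[ℂ] H) with hs | hs
  · rw [Subsingleton.elim y 1]
    exact InK.one
  have hsu : IsUnit (star y) := hu.star
  have habs : CFC.abs y * CFC.abs y = star y * y := CFC.abs_mul_abs y
  have ha0 : 0 ≤ CFC.abs y := CFC.abs_nonneg y
  have has : star (CFC.abs y) = CFC.abs y := ha0.isSelfAdjoint.star_eq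
  have haM : CFC.abs y ∈ M := by
    apply mem_of_comm
    intro z hz
    have h2 : Commute y z := comm_of_mem hy hz
    have h3 : Commute y (star z) := comm_of_mem hy (star_mem hz)
    exact h2.cfcAbs_left h3
  have hau : IsUnit (CFC.abs y) := by
    have h2 : IsUnit (CFC.abs y * CFC.abs y) := by
      rw [habs]; exact hsu.mul hu
    exact ((Commute.refl (CFC.abs y)).isUnit_mul_iff.1 h2).1
  obtain ⟨r, hr, hr1⟩ : ∃ r > 0, algebraMap ℝ (H →L[ℂ] H) r ≤ CFC.abs y :=
    (CFC.exists_pos_algebraMap_le_iff ha0.isSelfAdjoint).2 fun x hx =>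
      (IsStrictlyPositive.spectrum_pos ⟨ha0, hau⟩ hx)
  have ha1 : CFC.abs y ≤ 1 := by
    rw [← CStarAlgebra.norm_le_one_iff_of_nonneg _ ha0, CFC.norm_abs]
    exact h1
  have hK : InK M (CFC.abs y) := by
    apply InK.of_pos hN haM hr _ ha1
    rwa [Algebra.algebraMap_eq_smul_one] at hr1
  obtain ⟨A, hA⟩ := hau
  -- the inverse
  set B : H →L[ℂ] H := ((A⁻¹ : (H →L[ℂ] H)ˣ) : H →L[ℂ] H) with hB
  have hAB : CFC.abs y * B = 1 := by rw [← hA, hB]; exact A.mul_inv
  have hBA : B * CFC.abs y = 1 := by rw [← hA, hB]; exact A.inv_mul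
  have hBs : star B = B := by
    have h2 : star B * CFC.abs y = 1 := by
      have := congrArg star hAB
      rwa [star_mul, has, star_one] at this
    calc star B = star B * (CFC.abs y * B) := by rw [hAB, mul_one]
      _ = B := by rw [← mul_assoc, h2, one_mul]
  have hBM : B ∈ M := by
    apply mem_of_comm
    intro z hz
    have h2 := comm_of_mem haM hz
    calc B * z = B * z * (CFC.abs y * B) := by rw [hAB, mul_one]
      _ = B * (z * CFC.abs y) * B := by simp only [mul_assoc]
      _ = B * (CFC.abs y * z) * B := by rw [h2]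
      _ = (B * CFC.abs y) * z * B := by simp only [mul_assoc]
      _ = z * B := by rw [hBA, one_mul]
  set w := y * B with hw
  have hww : star w * w = 1 := by
    rw [hw, star_mul, hBs]
    calc B * star y * (y * B) = B * (star y * y) * B := by simp only [mul_assoc]
      _ = (B * CFC.abs y) * (CFC.abs y * B) := by rw [← habs]; simp only [mul_assoc]
      _ = 1 := by rw [hBA, hAB, one_mul]
  have hwu : IsUnit w := hu.mul ⟨A⁻¹, rfl⟩
  have hww' : w * star w = 1 := by
    obtain ⟨W, hW⟩ := hwu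
    have h2 : star w = ((W⁻¹ : (H →L[ℂ] H)ˣ) : H →L[ℂ] H) := by
      calc star w = star w * (w * ((W⁻¹ : (H →L[ℂ] H)ˣ) : H →L[ℂ] H)) := by
            rw [← hW, W.mul_inv, mul_one]
        _ = _ := by rw [← mul_assoc, hww, one_mul]
    rw [h2, ← hW]
    exact W.mul_inv
  have hy2 : y = w * CFC.abs y := by rw [hw, mul_assoc, hBA, mul_one]
  rw [hy2]
  exact hK.unitary_mul (mul_mem hy hBM) hww hww'

lemma InK.of_norm_lt (hN : NoFiniteSummand M) {x : H →L[ℂ] H} (hx : x ∈ M) (h1 : ‖x‖ < 1) :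
    InK M x := by
  have havg : ∀ u ∈ M, star u * u = 1 → u * star u = 1 → InK M ((1 / 2 : ℂ) • (u + x)) := by
    intro u hu h2 h3
    have hn : ‖star u‖ ≤ 1 := by
      rcases subsingleton_or_nontrivial (H →L[ℂ] H) with hs | hs
      · rw [Subsingleton.elim (star u) 0, norm_zero]; exact zero_le_one
      · have h4 : ‖star u * u‖ = ‖u‖ * ‖u‖ := CStarRing.norm_star_mul_self
        rw [h2, norm_one] at h4
        rw [norm_star]
        nlinarith [norm_nonneg u]
    have hnu : ‖u‖ ≤ 1 := by rwa [norm_star] at hn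
    have hux : ‖-(star u * x)‖ < 1 := by
      rw [norm_neg]
      calc ‖star u * x‖ ≤ ‖star u‖ * ‖x‖ := norm_mul_le _ _
        _ ≤ 1 * ‖x‖ := mul_le_mul_of_nonneg_right hn (norm_nonneg _)
        _ < 1 := by rwa [one_mul]
    have hun : IsUnit (1 - -(star u * x)) := isUnit_one_sub_of_norm_lt_one hux
    have huu : IsUnit u := ⟨⟨u, star u, h3, h2⟩, rfl⟩
    have e1 : u + x = u * (1 - -(star u * x)) := by
      rw [sub_neg_eq_add, mul_add, mul_one, ← mul_assoc, h3, one_mul]
    apply InK.of_unit hN (smul_mem_M _ (add_mem hu hx))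
    · rw [e1]
      have h5 := huu.mul hun
      have h6 : IsUnit ((Units.mk0 (1 / 2 : ℂ) (by norm_num)) • (u * (1 - -(star u * x)))) :=
        h5.smul _
      exact h6
    · rw [norm_smul]
      have : ‖(1 / 2 : ℂ)‖ = 1 / 2 := by norm_num
      rw [this]
      have := norm_add_le u x
      linarith
  -- iterate
  have hit : ∀ n : ℕ, ∃ k, InK M k ∧ k - x = ((1 / 2 : ℂ) ^ n) • (1 - x) := by
    intro n
    induction n with
    | zero => exact ⟨1, InK.one, by simp⟩
    | succ n ih =>
      obtain ⟨k, hk, hk2⟩ := ih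
      refine ⟨_, InK.avg havg hk, ?_⟩
      rw [pow_succ, mul_comm, mul_smul, ← hk2]
      module
  apply InK.of_norm
  intro δ hδ
  obtain ⟨n, hn⟩ := exists_pow_lt_of_lt_one (show 0 < δ / (‖(1 : H →L[ℂ] H) - x‖ + 1) by positivity)
    (show (1 / 2 : ℝ) < 1 by norm_num)
  obtain ⟨k, hk, hk2⟩ := hit n
  refine ⟨k, hk, ?_⟩
  rw [hk2, norm_smul, norm_pow]
  have : ‖(1 / 2 : ℂ)‖ = 1 / 2 := by norm_num
  rw [this]
  rw [lt_div_iff₀ (by positivity)] at hn
  have h0 : (0 : ℝ) < (1 / 2) ^ n := by positivity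
  nlinarith [norm_nonneg ((1 : H →L[ℂ] H) - x)]

/-- in a von Neumann algebra without finite-dimensional direct summand, all contractions are weak
limits of unitaries -/
theorem InK.all (hN : NoFiniteSummand M) {x : H →L[ℂ] H} (hx : x ∈ M) (h1 : ‖x‖ ≤ 1) :
    InK M x := by
  apply InK.of_norm
  intro δ hδ
  set m : ℝ := min δ (1 / 2) with hm
  have hm0 : 0 < m := lt_min hδ (by norm_num)
  have hm1 : m ≤ 1 / 2 := min_le_right _ _
  have hm2 : m ≤ δ := min_le_left _ _
  refine ⟨(1 - m) • x, InK.of_norm_lt hN (rsmul_mem_M _ hx) ?_, ?_⟩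
  · rw [norm_smul, Real.norm_eq_abs, abs_of_nonneg (by linarith)]
    nlinarith [norm_nonneg x]
  · have e : (1 - m) • x - x = -(m • x) := by module
    rw [e, norm_neg, norm_smul, Real.norm_eq_abs, abs_of_nonneg hm0.le]
    nlinarith [norm_nonneg x]

end Pool.Agent.Helper97.Resid
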