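import Mathlib
import Pool.Agent.Helper97.Resid.Dense

/-!
# The weak-star topology on the ball
-/

set_option linter.unusedSectionVars false
set_option linter.unusedSimpArgs false

open scoped InnerProductSpace ENNReal

universe u

namespace Pool.Agent.Helper97.Resid

variable {H : Type u} [NormedAddCommGroup H] [InnerProductSpace ℂ H] [CompleteSpace H]

/-- matrix coefficients -/
noncomputable def ev (M : VonNeumannAlgebra H) (x : Ball M) : H × H → ℂ := fun p => ⟪p.2, x.1 p.1⟫_ℂ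

variable {M : VonNeumannAlgebra H}

lemma continuous_coef (ξ η : H) : Continuous (fun x : Ball M => ⟪η, x.1 ξ⟫_ℂ) := by
  classical
  set q : lp (fun _ : ℕ => H) 2 × lp (fun _ : ℕ => H) 2 := (lp.single 2 0 ξ, lp.single 2 0 η) with hq
  have h1 : Continuous (fun x : Ball M => ∑' n, ⟪q.2 n, x.1 (q.1 n)⟫_ℂ) :=
    continuous_iInf_dom (i := q) continuous_induced_dom
  have h2 : (fun x : Ball M => ∑' n, ⟪q.2 n, x.1 (q.1 n)⟫_ℂ) = fun x : Ball M => ⟪η, x.1 ξ⟫_ℂ := by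
    funext x
    rw [tsum_eq_single 0]
    · have e1 : q.1 0 = ξ := by
        show (lp.single 2 0 ξ : lp (fun _ : ℕ => H) 2) 0 = ξ
        simp
      have e2 : q.2 0 = η := by
        show (lp.single 2 0 η : lp (fun _ : ℕ => H) 2) 0 = η
        simp
      rw [e1, e2]
    · intro n hn
      have e1 : q.1 n = 0 := by
        show (lp.single 2 0 ξ : lp (fun _ : ℕ => H) 2) n = 0
        simp [hn]
      rw [e1, map_zero, inner_zero_right]
  rwa [h2] at h1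

lemma ev_inducing : Topology.IsInducing (ev M) := by
  constructor
  apply le_antisymm
  · rw [← continuous_iff_le_induced]
    exact continuous_pi fun p => continuous_coef p.1 p.2
  · show TopologicalSpace.induced (ev M) Pi.topologicalSpace ≤ ⨅ q, _
    apply le_iInf
    intro q
    suffices key : @Continuous (Ball M) ℂ (TopologicalSpace.induced (ev M) Pi.topologicalSpace) _
        (fun x : Ball M => ∑' n, ⟪q.2 n, x.1 (q.1 n)⟫_ℂ) from continuous_iff_le_induced.1 key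
    let _ : TopologicalSpace (Ball M) := TopologicalSpace.induced (ev M) Pi.topologicalSpace
    have hev : Continuous (ev M) := continuous_induced_dom
    have hs1 : Summable fun n => ‖q.1 n‖ ^ (2 : ℕ) := by
      have := (lp.memℓp q.1).summable (by norm_num)
      simpa using this
    have hs2 : Summable fun n => ‖q.2 n‖ ^ (2 : ℕ) := by
      have := (lp.memℓp q.2).summable (by norm_num)
      simpa using this
    have hs : Summable fun n => ‖q.2 n‖ ^ (2 : ℕ) + ‖q.1 n‖ ^ (2 : ℕ) := hs2.add hs1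
    refine continuous_tsum (u := fun n => ‖q.2 n‖ ^ (2 : ℕ) + ‖q.1 n‖ ^ (2 : ℕ)) ?_ hs ?_
    · intro n
      exact (continuous_apply (q.1 n, q.2 n)).comp hev
    · intro n x
      have h1 : ‖x.1 (q.1 n)‖ ≤ ‖q.1 n‖ := by
        have := ContinuousLinearMap.le_opNorm x.1 (q.1 n)
        have h2 := x.2.2
        nlinarith [norm_nonneg (q.1 n)]
      have h3 := norm_inner_le_norm (𝕜 := ℂ) (q.2 n) (x.1 (q.1 n))
      have h4 : ‖q.2 n‖ * ‖x.1 (q.1 n)‖ ≤ ‖q.2 n‖ * ‖q.1 n‖ :=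
        mul_le_mul_of_nonneg_left h1 (norm_nonneg _)
      nlinarith [sq_nonneg (‖q.2 n‖ - ‖q.1 n‖), norm_nonneg (q.2 n), norm_nonneg (q.1 n),
        sq_nonneg (‖q.2 n‖), sq_nonneg ‖q.1 n‖]

lemma ev_injective : Function.Injective (ev M) := by
  intro x y h
  apply Subtype.ext
  ext ξ
  apply ext_inner_left ℂ
  intro η
  exact congrFun h (ξ, η)

lemma ev_embedding : Topology.IsEmbedding (ev M) := ⟨ev_inducing, ev_injective⟩

instance : T2Space (Ball M) := ev_embedding.t2Space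

/-- the closed set of matrix coefficients -/
def coefSet (M : VonNeumannAlgebra H) : Set (H × H → ℂ) :=
  {φ | (∀ ξ ξ' η, φ (ξ + ξ', η) = φ (ξ, η) + φ (ξ', η)) ∧
    (∀ (c : ℂ) ξ η, φ (c • ξ, η) = c * φ (ξ, η)) ∧
    (∀ ξ η η', φ (ξ, η + η') = φ (ξ, η) + φ (ξ, η')) ∧
    (∀ (c : ℂ) ξ η, φ (ξ, c • η) = (starRingEnd ℂ c) * φ (ξ, η)) ∧
    (∀ ξ η, ‖φ (ξ, η)‖ ≤ ‖ξ‖ * ‖η‖) ∧
    (∀ y : M.commutant, ∀ ξ η, φ (y.1 ξ, η) = φ (ξ, star y.1 η))}

lemma coefSet_closed : IsClosed (coefSet M) := by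
  unfold coefSet
  simp only [Set.ofPred_and, Set.ofPred_forall]
  refine IsClosed.inter ?_ (IsClosed.inter ?_ (IsClosed.inter ?_ (IsClosed.inter ?_
    (IsClosed.inter ?_ ?_))))
  · exact isClosed_iInter fun _ => isClosed_iInter fun _ => isClosed_iInter fun _ =>
      isClosed_eq (by fun_prop) (by fun_prop)
  · exact isClosed_iInter fun _ => isClosed_iInter fun _ => isClosed_iInter fun _ =>
      isClosed_eq (by fun_prop) (by fun_prop)
  · exact isClosed_iInter fun _ => isClosed_iInter fun _ => isClosed_iInter fun _ =>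
      isClosed_eq (by fun_prop) (by fun_prop)
  · exact isClosed_iInter fun _ => isClosed_iInter fun _ => isClosed_iInter fun _ =>
      isClosed_eq (by fun_prop) (by fun_prop)
  · exact isClosed_iInter fun _ => isClosed_iInter fun _ => isClosed_le (by fun_prop) (by fun_prop)
  · exact isClosed_iInter fun _ => isClosed_iInter fun _ => isClosed_iInter fun _ =>
      isClosed_eq (by fun_prop) (by fun_prop)

lemma coefSet_compact : IsCompact (coefSet M) := by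
  have h1 : IsCompact (Set.univ.pi fun p : H × H => Metric.closedBall (0 : ℂ) (‖p.1‖ * ‖p.2‖)) :=
    isCompact_univ_pi fun p => isCompact_closedBall _ _
  refine h1.of_isClosed_subset coefSet_closed ?_
  intro φ hφ p _
  rw [mem_closedBall_zero_iff]
  exact hφ.2.2.2.2.1 p.1 p.2

lemma range_ev : Set.range (ev M) = coefSet M := by
  apply Set.Subset.antisymm
  · rintro _ ⟨x, rfl⟩
    refine ⟨?_, ?_, ?_, ?_, ?_, ?_⟩
    · intro ξ ξ' η
      show ⟪η, x.1 (ξ + ξ')⟫_ℂ = _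
      rw [map_add, inner_add_right]; rfl
    · intro c ξ η
      show ⟪η, x.1 (c • ξ)⟫_ℂ = _
      rw [map_smul, inner_smul_right]; rfl
    · intro ξ η η'
      show ⟪η + η', x.1 ξ⟫_ℂ = _
      rw [inner_add_left]; rfl
    · intro c ξ η
      show ⟪c • η, x.1 ξ⟫_ℂ = _
      rw [inner_smul_left]; rfl
    · intro ξ η
      show ‖⟪η, x.1 ξ⟫_ℂ‖ ≤ _
      have := ContinuousLinearMap.le_opNorm x.1 ξ
      have h2 := x.2.2
      have h3 : ‖x.1 ξ‖ ≤ ‖ξ‖ := by nlinarith [norm_nonneg ξ]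
      calc ‖⟪η, x.1 ξ⟫_ℂ‖ ≤ ‖η‖ * ‖x.1 ξ‖ := norm_inner_le_norm _ _
        _ ≤ ‖η‖ * ‖ξ‖ := mul_le_mul_of_nonneg_left h3 (norm_nonneg _)
        _ = ‖ξ‖ * ‖η‖ := mul_comm _ _
    · intro y ξ η
      show ⟪η, x.1 (y.1 ξ)⟫_ℂ = ⟪star y.1 η, x.1 ξ⟫_ℂ
      rw [ContinuousLinearMap.star_eq_adjoint, ContinuousLinearMap.adjoint_inner_left]
      congr 1
      have h := comm_of_mem x.2.1 y.2
      exact congrArg (fun T : H →L[ℂ] H => T ξ) h
  · rintro φ ⟨h1, h2, h3, h4, h5, h6⟩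
    let L : H →ₛₗ[starRingEnd ℂ] H →ₗ[ℂ] ℂ :=
      LinearMap.mk₂'ₛₗ (starRingEnd ℂ) (RingHom.id ℂ) (fun η ξ => φ (ξ, η))
        (fun η η' ξ => h3 ξ η η') (fun c η ξ => h4 c ξ η) (fun η ξ ξ' => h1 ξ ξ' η)
        (fun c η ξ => h2 c ξ η)
    let B : H →L⋆[ℂ] H →L[ℂ] ℂ := LinearMap.mkContinuous₂ L 1 (fun η ξ => by
      show ‖φ (ξ, η)‖ ≤ 1 * ‖η‖ * ‖ξ‖
      rw [one_mul, mul_comm]
      exact h5 ξ η)
    set T : H →L[ℂ] H := InnerProductSpace.continuousLinearMapOfBilin B with hT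
    have hTa : ∀ η ξ, ⟪T η, ξ⟫_ℂ = φ (ξ, η) := by
      intro η ξ
      rw [hT, InnerProductSpace.continuousLinearMapOfBilin_apply]
      rfl
    set x : H →L[ℂ] H := star T with hx
    have hxa : ∀ ξ η, ⟪η, x ξ⟫_ℂ = φ (ξ, η) := by
      intro ξ η
      rw [hx, ContinuousLinearMap.star_eq_adjoint, ContinuousLinearMap.adjoint_inner_right, hTa]
    have hxn : ‖x‖ ≤ 1 := by
      apply ContinuousLinearMap.opNorm_le_bound _ zero_le_one
      intro ξ
      rw [one_mul]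
      have h7 : ‖x ξ‖ * ‖x ξ‖ ≤ ‖ξ‖ * ‖x ξ‖ := by
        have h8 := h5 ξ (x ξ)
        rw [← hxa ξ (x ξ), inner_self_eq_norm_sq_to_K] at h8
        have h9 : ‖((‖x ξ‖ : ℂ)) ^ 2‖ = ‖x ξ‖ * ‖x ξ‖ := by
          rw [norm_pow, Complex.norm_real, norm_norm, sq]
        have h10 : ‖((‖x ξ‖ : ℂ)) ^ 2‖ ≤ ‖ξ‖ * ‖x ξ‖ := h8
        rwa [h9] at h10
      rcases (norm_nonneg (x ξ)).eq_or_lt with h0 | h0
      · rw [← h0]; exact norm_nonneg _
      · exact le_of_mul_le_mul_right h7 h0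
    have hxM : x ∈ M := by
      apply mem_of_comm
      intro y hy
      ext ξ
      apply ext_inner_left ℂ
      intro η
      show ⟪η, x (y ξ)⟫_ℂ = ⟪η, y (x ξ)⟫_ℂ
      rw [hxa]
      have h8 : φ (y ξ, η) = φ (ξ, star y η) := h6 ⟨y, hy⟩ ξ η
      rw [h8, ← hxa, ContinuousLinearMap.star_eq_adjoint, ContinuousLinearMap.adjoint_inner_left]
    refine ⟨⟨x, hxM, hxn⟩, ?_⟩
    funext p
    exact hxa p.1 p.2

instance : CompactSpace (Ball M) := by
  rw [← isCompact_univ_iff, ev_inducing.isCompact_iff, Set.image_univ, range_ev]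
  exact coefSet_compact

lemma exists_basic {U : Set (Ball M)} (hU : IsOpen U) {x : Ball M} (hx : x ∈ U) :
    ∃ (F : Finset H) (ε : ℝ), 0 < ε ∧
      ∀ y : Ball M, (∀ ξ ∈ F, ∀ η ∈ F, ‖⟪η, (y.1 - x.1) ξ⟫_ℂ‖ ≤ ε) → y ∈ U := by
  classical
  obtain ⟨V, hV, rfl⟩ := ev_inducing.isOpen_iff.1 hU
  obtain ⟨I, u, hu, hIu⟩ := isOpen_pi_iff.1 hV (ev M x) hx
  have h1 : ∀ᶠ r in nhds (0 : ℝ), ∀ a ∈ I, Metric.closedBall (ev M x a) r ⊆ u a := by
    rw [Finset.eventually_all]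
    intro a ha
    exact eventually_closedBall_subset ((hu a ha).1.mem_nhds (hu a ha).2)
  have h2 : ∀ᶠ r in nhdsWithin (0 : ℝ) (Set.Ioi 0), (∀ a ∈ I, Metric.closedBall (ev M x a) r ⊆ u a)
      ∧ r ∈ Set.Ioi (0 : ℝ) := (h1.filter_mono nhdsWithin_le_nhds).and self_mem_nhdsWithin
  obtain ⟨ε, hε, hε0⟩ := h2.exists
  refine ⟨I.image Prod.fst ∪ I.image Prod.snd, ε, hε0, ?_⟩
  intro y hy
  apply hIu
  intro a ha
  apply hε a ha
  rw [mem_closedBall_iff_norm]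
  have h3 := hy a.1 (Finset.mem_union_left _ (Finset.mem_image_of_mem _ ha)) a.2
    (Finset.mem_union_right _ (Finset.mem_image_of_mem _ ha))
  have h4 : ev M y a - ev M x a = ⟪a.2, (y.1 - x.1) a.1⟫_ℂ := by
    show ⟪a.2, y.1 a.1⟫_ℂ - ⟪a.2, x.1 a.1⟫_ℂ = _
    rw [← inner_sub_right]; rfl
  rwa [h4]

lemma continuous_coef_sub (x : Ball M) (ξ η : H) :
    Continuous (fun y : Ball M => ⟪η, (y.1 - x.1) ξ⟫_ℂ) := by
  have h : (fun y : Ball M => ⟪η, (y.1 - x.1) ξ⟫_ℂ) = fun y : Ball M => ⟪η, y.1 ξ⟫_ℂ - ⟪η, x.1 ξ⟫_ℂ := by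
    funext y
    rw [← inner_sub_right]; rfl
  rw [h]
  exact (continuous_coef ξ η).sub continuous_const

lemma isOpen_basic (x : Ball M) (F : Finset H) (ε : ℝ) :
    IsOpen {y : Ball M | ∀ ξ ∈ F, ∀ η ∈ F, ‖⟪η, (y.1 - x.1) ξ⟫_ℂ‖ < ε} := by
  have h : {y : Ball M | ∀ ξ ∈ F, ∀ η ∈ F, ‖⟪η, (y.1 - x.1) ξ⟫_ℂ‖ < ε} =
      ⋂ ξ ∈ F, ⋂ η ∈ F, {y : Ball M | ‖⟪η, (y.1 - x.1) ξ⟫_ℂ‖ < ε} := by
    ext y; simp
  rw [h]
  exact isOpen_biInter_finset fun ξ _ => isOpen_biInter_finset fun η _ =>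
    isOpen_lt (continuous_coef_sub x ξ η).norm continuous_const

lemma isClosed_basic (x : Ball M) (F : Finset H) (ε : ℝ) :
    IsClosed {y : Ball M | ∀ ξ ∈ F, ∀ η ∈ F, ‖⟪η, (y.1 - x.1) ξ⟫_ℂ‖ ≤ ε} := by
  have h : {y : Ball M | ∀ ξ ∈ F, ∀ η ∈ F, ‖⟪η, (y.1 - x.1) ξ⟫_ℂ‖ ≤ ε} =
      ⋂ ξ ∈ F, ⋂ η ∈ F, {y : Ball M | ‖⟪η, (y.1 - x.1) ξ⟫_ℂ‖ ≤ ε} := by
    ext y; simp
  rw [h]
  exact isClosed_biInter fun ξ _ => isClosed_biInter fun η _ =>
    isClosed_le (continuous_coef_sub x ξ η).norm continuous_const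

lemma norm_le_one_of_isometry {u : H →L[ℂ] H} (h : star u * u = 1) : ‖u‖ ≤ 1 := by
  rcases subsingleton_or_nontrivial (H →L[ℂ] H) with hs | hs
  · rw [Subsingleton.elim u 0, norm_zero]; exact zero_le_one
  · have h4 : ‖star u * u‖ = ‖u‖ * ‖u‖ := CStarRing.norm_star_mul_self
    rw [h, norm_one] at h4
    nlinarith [norm_nonneg u]

/-- density of the unitaries -/
lemma dense_unitaries (hN : NoFiniteSummand M) :
    Dense {x : Ball M | star x.1 * x.1 = 1 ∧ x.1 * star x.1 = 1} := by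
  rw [dense_iff_inter_open]
  rintro U hU ⟨x, hx⟩
  obtain ⟨F, ε, hε, h1⟩ := exists_basic hU hx
  obtain ⟨u, hu, h2, h3, h4⟩ := InK.all hN x.2.1 x.2.2 F ε hε
  exact ⟨⟨u, hu, norm_le_one_of_isometry h2⟩, h1 _ fun ξ hξ η hη => (h4 ξ hξ η hη).le, h2, h3⟩

end Pool.Agent.Helper97.Resid
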