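import Mathlib
import Pool.Agent.Helper97.Resid.Topo

/-!
# The characterization
-/

set_option linter.unusedSectionVars false
set_option linter.unusedSimpArgs false

open scoped InnerProductSpace ENNReal

universe u

namespace Pool.Agent.Helper97.Resid

variable {H : Type u} [NormedAddCommGroup H] [InnerProductSpace ℂ H] [CompleteSpace H]
  {M : VonNeumannAlgebra H}

lemma inner_star_left (x : H →L[ℂ] H) (ξ η : H) : ⟪star x η, ξ⟫_ℂ = ⟪η, x ξ⟫_ℂ := by
  rw [ContinuousLinearMap.star_eq_adjoint, ContinuousLinearMap.adjoint_inner_left]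

lemma inner_star_right (x : H →L[ℂ] H) (ξ η : H) : ⟪η, star x ξ⟫_ℂ = ⟪x η, ξ⟫_ℂ := by
  rw [ContinuousLinearMap.star_eq_adjoint, ContinuousLinearMap.adjoint_inner_right]

lemma pj_zero_of_orth {K : Submodule ℂ H} {w : H} (h : ∀ v ∈ K, ⟪v, w⟫_ℂ = 0) : pj K w = 0 := by
  have hcl : IsClosed {x : H | ⟪x, w⟫_ℂ = 0} :=
    isClosed_eq (continuous_id.inner continuous_const) continuous_const
  have hsub : closure (K : Set H) ⊆ {x : H | ⟪x, w⟫_ℂ = 0} := closure_minimal h hcl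
  have h2 : ⟪pj K w, w⟫_ℂ = 0 := hsub (pj_mem_closure _ w)
  have h3 : ⟪pj K w, pj K w⟫_ℂ = 0 := by
    have hp : IsStarProjection (pj K) := pj_proj _
    rw [← inner_proj_proj hp, ← inner_proj hp, h2]
  exact inner_self_eq_zero.1 h3

/-- the cyclic subspace of the commutant generated by `ξ` -/
def cyc (M : VonNeumannAlgebra H) (ξ : H) : Submodule ℂ H :=
  Submodule.span ℂ {v | ∃ y ∈ M.commutant, v = y ξ}

lemma cyc_self (ξ : H) : ξ ∈ cyc M ξ := Submodule.subset_span ⟨1, one_mem _, rfl⟩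

lemma cyc_pj_mem (ξ : H) : pj (cyc M ξ) ∈ M := by
  apply pj_mem
  intro z hz x hx
  unfold cyc at hx ⊢
  induction hx using Submodule.span_induction with
  | mem x hx =>
    obtain ⟨y, hy, rfl⟩ := hx
    exact Submodule.subset_span ⟨z * y, mul_mem hz hy, rfl⟩
  | zero => rw [map_zero]; exact Submodule.zero_mem _
  | add x y _ _ h1 h2 => rw [map_add]; exact Submodule.add_mem _ h1 h2
  | smul c x _ h1 => rw [map_smul]; exact Submodule.smul_mem _ _ h1

lemma cyc_orth {ξ η : H} (h : ∀ y ∈ M.commutant, ⟪η, y ξ⟫_ℂ = 0) :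
    pj (cyc M ξ) * pj (cyc M η) = 0 := by
  have h1 : pj (cyc M ξ) * pj (cyc M η) = 0 * pj (cyc M η) := by
    apply mul_pj
    intro w hw
    show pj (cyc M ξ) w = 0
    apply pj_zero_of_orth
    intro v hv
    unfold cyc at hv hw
    induction hv using Submodule.span_induction with
    | mem v hv =>
      obtain ⟨y, hy, rfl⟩ := hv
      induction hw using Submodule.span_induction with
      | mem w hw =>
        obtain ⟨y', hy', rfl⟩ := hw
        rw [← inner_star_left]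
        have h2 := h (star y' * y) (mul_mem (star_mem hy') hy)
        have h3 : ⟪η, (star y' * y) ξ⟫_ℂ = ⟪y' η, y ξ⟫_ℂ := inner_star_right y' (y ξ) η
        rw [h3] at h2
        rw [inner_star_left, ← inner_conj_symm, h2, map_zero]
      | zero => rw [inner_zero_right]
      | add x y _ _ h1 h2 => rw [inner_add_right, h1, h2, add_zero]
      | smul c x _ h1 => rw [inner_smul_right, h1, mul_zero]
    | zero => rw [inner_zero_left]
    | add x y _ _ h1 h2 => rw [inner_add_left, h1, h2, add_zero]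
    | smul c x _ h1 => rw [inner_smul_left, h1, mul_zero]
  rw [zero_mul] at h1
  exact h1

/-- a sigma-finite von Neumann algebra has a countable separating set of vectors -/
lemma exists_separating (hS : SigmaFinite M) :
    ∃ S : Set H, S.Countable ∧ ∀ x ∈ M, (∀ ξ ∈ S, x ξ = 0) → x = 0 := by
  obtain ⟨S, hSm⟩ := zorn_subset
    {S : Set H | 0 ∉ S ∧ ∀ ξ ∈ S, ∀ η ∈ S, ξ ≠ η → ∀ y ∈ M.commutant, ⟪η, y ξ⟫_ℂ = 0} (by
      intro c hc hch
      refine ⟨⋃₀ c, ⟨?_, ?_⟩, fun s hs => Set.subset_sUnion_of_mem hs⟩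
      · rintro ⟨s, hs, h0⟩
        exact (hc hs).1 h0
      · rintro ξ ⟨s, hs, hξ⟩ η ⟨t, ht, hη⟩ hne y hy
        rcases hch.total hs ht with h | h
        · exact (hc ht).2 ξ (h hξ) η hη hne y hy
        · exact (hc hs).2 ξ hξ η (h hη) hne y hy)
  have hS1 := hSm.prop
  refine ⟨S, ?_, ?_⟩
  · have hpself : ∀ ξ : H, pj (cyc M ξ) ξ = ξ := fun ξ => pj_of_mem (cyc_self ξ)
    have hinj : S.InjOn fun ξ => pj (cyc M ξ) := by
      intro ξ hξ η hη h
      by_contra hne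
      have h1 := cyc_orth (M := M) (hS1.2 ξ hξ η hη hne)
      have h2 : pj (cyc M ξ) = pj (cyc M η) := h
      rw [← h2, proj_mul_self (pj_proj _)] at h1
      have h3 := hpself ξ
      rw [h1] at h3
      have h4 : ξ = 0 := h3.symm
      exact hS1.1 (h4 ▸ hξ)
    apply Set.countable_of_injective_of_countable_image hinj
    apply hS
    · rintro p ⟨ξ, hξ, rfl⟩
      refine ⟨cyc_pj_mem ξ, pj_proj _, ?_⟩
      intro h0
      have h3 := hpself ξ
      have h4 : pj (cyc M ξ) = 0 := h0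
      rw [h4] at h3
      have h5 : ξ = 0 := h3.symm
      exact hS1.1 (h5 ▸ hξ)
    · rintro p ⟨ξ, hξ, rfl⟩ q ⟨η, hη, rfl⟩ hpq
      have hne : ξ ≠ η := by rintro rfl; exact hpq rfl
      exact cyc_orth (hS1.2 ξ hξ η hη hne)
  · intro x hx hxS
    by_contra hx0
    obtain ⟨w, hw⟩ : ∃ w, star x w ≠ 0 := by
      by_contra hc
      push Not at hc
      apply hx0
      have : star x = 0 := by ext v; simpa using hc v
      rw [← star_star x, this, star_zero]
    set ζ := star x w with hζ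
    have h1 : ∀ y ∈ M.commutant, ∀ ξ ∈ S, ⟪ζ, y ξ⟫_ℂ = 0 := by
      intro y hy ξ hξ
      rw [hζ, inner_star_left]
      have h2 : x (y ξ) = y (x ξ) := congrArg (fun T : H →L[ℂ] H => T ξ) (comm_of_mem hx hy)
      rw [h2, hxS ξ hξ, map_zero, inner_zero_right]
    have hζS : ζ ∉ S := by
      intro hmem
      have h2 := h1 1 (one_mem _) ζ hmem
      exact hw (inner_self_eq_zero.1 h2)
    have hgood : insert ζ S ∈ {S : Set H | 0 ∉ S ∧ ∀ ξ ∈ S, ∀ η ∈ S, ξ ≠ η →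
        ∀ y ∈ M.commutant, ⟪η, y ξ⟫_ℂ = 0} := by
      refine ⟨?_, ?_⟩
      · rintro (h | h)
        · exact hw h.symm
        · exact hS1.1 h
      · rintro ξ (rfl | hξ) η (rfl | hη) hne y hy
        · exact absurd rfl hne
        · have h2 := h1 (star y) (star_mem hy) η hη
          rw [inner_star_right] at h2
          rw [← inner_conj_symm, h2, map_zero]
        · exact h1 y hy ξ hξ
        · exact hS1.2 ξ hξ η hη hne y hy
    have := hSm.le_of_ge hgood (Set.subset_insert _ _)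
    exact hζS (this (Set.mem_insert _ _))

lemma isOpen_norm_gt (ξ : H) (r : ℝ) : IsOpen {x : Ball M | r < ‖x.1 ξ‖} := by
  have h : {x : Ball M | r < ‖x.1 ξ‖} =
      ⋃ η : {η : H // ‖η‖ ≤ 1}, {x : Ball M | r < ‖⟪η.1, x.1 ξ⟫_ℂ‖} := by
    ext x
    simp only [Set.mem_iUnion, Set.mem_ofPred_eq]
    constructor
    · intro hx
      rcases eq_or_ne (x.1 ξ) 0 with h0 | h0
      · refine ⟨⟨0, by simp⟩, ?_⟩
        rw [h0, norm_zero] at hx
        simpa using hx
      · have hn : ‖x.1 ξ‖ ≠ 0 := norm_ne_zero_iff.2 h0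
        refine ⟨⟨((‖x.1 ξ‖⁻¹ : ℝ) : ℂ) • x.1 ξ, ?_⟩, ?_⟩
        · rw [norm_smul, Complex.norm_real, Real.norm_eq_abs, abs_of_nonneg (by positivity),
            inv_mul_cancel₀ hn]
        · show r < ‖⟪((‖x.1 ξ‖⁻¹ : ℝ) : ℂ) • x.1 ξ, x.1 ξ⟫_ℂ‖
          rw [inner_smul_left, norm_mul, inner_self_eq_norm_sq_to_K, norm_pow]
          have e1 : ‖(starRingEnd ℂ) ((‖x.1 ξ‖⁻¹ : ℝ) : ℂ)‖ = ‖x.1 ξ‖⁻¹ := by
            rw [RCLike.norm_conj, Complex.norm_real, Real.norm_eq_abs, abs_of_nonneg (by positivity)]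
          have e2 : ‖((‖x.1 ξ‖ : ℝ) : ℂ)‖ = ‖x.1 ξ‖ := by
            rw [Complex.norm_real, norm_norm]
          have e3 : ‖x.1 ξ‖⁻¹ * ‖x.1 ξ‖ ^ 2 = ‖x.1 ξ‖ := by
            rw [sq, ← mul_assoc, inv_mul_cancel₀ hn, one_mul]
          calc r < ‖x.1 ξ‖ := hx
            _ = ‖x.1 ξ‖⁻¹ * ‖x.1 ξ‖ ^ 2 := e3.symm
            _ = ‖(starRingEnd ℂ) ((‖x.1 ξ‖⁻¹ : ℝ) : ℂ)‖ * ‖((‖x.1 ξ‖ : ℝ) : ℂ)‖ ^ 2 := by
                rw [e1, e2]
    · rintro ⟨η, hη⟩
      refine hη.trans_le ((norm_inner_le_norm _ _).trans ?_)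
      calc ‖η.1‖ * ‖x.1 ξ‖ ≤ 1 * ‖x.1 ξ‖ := mul_le_mul_of_nonneg_right η.2 (norm_nonneg _)
        _ = _ := one_mul _
  rw [h]
  exact isOpen_iUnion fun η => isOpen_lt continuous_const (continuous_coef ξ η.1).norm

/-- the adjoint operation on the ball -/
noncomputable def starBall (x : Ball M) : Ball M := ⟨star x.1, star_mem x.2.1, by rw [norm_star]; exact x.2.2⟩

lemma continuous_starBall : Continuous (starBall : Ball M → Ball M) := by
  rw [ev_inducing.continuous_iff]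
  apply continuous_pi
  intro p
  have h : (fun x : Ball M => (ev M ∘ starBall) x p) =
      fun x : Ball M => (starRingEnd ℂ) ⟪p.1, x.1 p.2⟫_ℂ := by
    funext x
    show ⟪p.2, star x.1 p.1⟫_ℂ = _
    rw [inner_star_right, inner_conj_symm]
  rw [h]
  exact Complex.continuous_conj.comp (continuous_coef p.2 p.1)

lemma isOpen_norm_star_gt (ξ : H) (r : ℝ) : IsOpen {x : Ball M | r < ‖star x.1 ξ‖} :=
  (isOpen_norm_gt ξ r).preimage continuous_starBall

lemma isom_norm {u : H →L[ℂ] H} (h : star u * u = 1) (ξ : H) : ‖u ξ‖ = ‖ξ‖ := by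
  have h1 : ⟪u ξ, u ξ⟫_ℂ = ⟪ξ, ξ⟫_ℂ := by
    rw [← inner_star_right]
    show ⟪ξ, (star u * u) ξ⟫_ℂ = _
    rw [h]; rfl
  rw [inner_self_eq_norm_sq_to_K, inner_self_eq_norm_sq_to_K] at h1
  have h2 : ‖u ξ‖ ^ 2 = ‖ξ‖ ^ 2 := by exact_mod_cast h1
  rwa [sq_eq_sq₀ (norm_nonneg _) (norm_nonneg _)] at h2

lemma isom_of_norm {x : H →L[ℂ] H} (hx : x ∈ M) (hx1 : ‖x‖ ≤ 1) {S : Set H}
    (hS : ∀ x ∈ M, (∀ ξ ∈ S, x ξ = 0) → x = 0) (h : ∀ ξ ∈ S, ‖ξ‖ ≤ ‖x ξ‖) : star x * x = 1 := by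
  have h0 : (0 : H →L[ℂ] H) ≤ 1 - star x * x := by
    rw [sub_nonneg, ← CStarAlgebra.norm_le_one_iff_of_nonneg _ (star_mul_self_nonneg x),
      CStarRing.norm_star_mul_self]
    nlinarith [norm_nonneg x]
  have h1 : 1 - star x * x = 0 := by
    apply hS _ (sub_mem (one_mem M) (mul_mem (star_mem hx) hx))
    intro ξ hξ
    apply nonneg_apply_zero h0
    have e1 : ⟪ξ, (1 - star x * x) ξ⟫_ℂ = ⟪ξ, ξ⟫_ℂ - ⟪x ξ, x ξ⟫_ℂ := by
      rw [← inner_star_right x (x ξ) ξ, ← inner_sub_right]; rfl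
    have h2 : ‖x ξ‖ ≤ ‖ξ‖ := by
      have := ContinuousLinearMap.le_opNorm x ξ
      nlinarith [norm_nonneg ξ]
    have h3 : ‖x ξ‖ = ‖ξ‖ := le_antisymm h2 (h ξ hξ)
    rw [e1, inner_self_eq_norm_sq_to_K, inner_self_eq_norm_sq_to_K, h3, sub_self]
    rfl
  exact (sub_eq_zero.1 h1).symm

/-- sufficiency -/
theorem propertyR_of (hS : SigmaFinite M) (hN : NoFiniteSummand M) : PropertyR M := by
  obtain ⟨S, hSc, hSs⟩ := exists_separating hS
  have hd := dense_unitaries hN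
  show _ ∈ residual (Ball M)
  have hres : (⋂ ξ ∈ S, ⋂ n : ℕ, ({x : Ball M | ‖ξ‖ - 1 / ((n : ℝ) + 1) < ‖x.1 ξ‖} ∩
      {x : Ball M | ‖ξ‖ - 1 / ((n : ℝ) + 1) < ‖star x.1 ξ‖})) ∈ residual (Ball M) := by
    rw [countable_bInter_mem hSc]
    intro ξ _
    rw [countable_iInter_mem]
    intro n
    have hpos : 0 < 1 / ((n : ℝ) + 1) := by positivity
    apply Filter.inter_mem
    · apply residual_of_dense_open (isOpen_norm_gt ξ _)
      apply hd.mono
      rintro x ⟨h1, _⟩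
      show ‖ξ‖ - 1 / ((n : ℝ) + 1) < ‖x.1 ξ‖
      rw [isom_norm h1]
      linarith
    · apply residual_of_dense_open (isOpen_norm_star_gt ξ _)
      apply hd.mono
      rintro x ⟨_, h1⟩
      show ‖ξ‖ - 1 / ((n : ℝ) + 1) < ‖star x.1 ξ‖
      rw [isom_norm (u := star x.1) (by rw [star_star]; exact h1)]
      linarith
  refine Filter.mem_of_superset hres ?_
  intro x hx
  simp only [Set.mem_iInter, Set.mem_inter_iff, Set.mem_ofPred_eq] at hx
  show ¬ ¬ _
  rw [not_not]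
  have key : ∀ a b : ℝ, (∀ n : ℕ, a - 1 / ((n : ℝ) + 1) < b) → a ≤ b := by
    intro a b hab
    apply le_of_forall_pos_lt_add
    intro ε hε
    obtain ⟨n, hn⟩ := exists_nat_one_div_lt hε
    have := hab n
    linarith
  constructor
  · exact isom_of_norm x.2.1 x.2.2 hSs fun ξ hξ => key _ _ fun n => (hx ξ hξ n).1
  · have := isom_of_norm (x := star x.1) (star_mem x.2.1) (by rw [norm_star]; exact x.2.2) hSs
      fun ξ hξ => key _ _ fun n => (hx ξ hξ n).2
    rwa [star_star] at this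

end Pool.Agent.Helper97.Resid
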