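import Mathlib
import Pool.Agent.Helper97.Resid.Suff

/-!
# Necessity
-/

set_option linter.unusedSectionVars false
set_option linter.unusedSimpArgs false

open scoped InnerProductSpace ENNReal

universe u

namespace Pool.Agent.Helper97.Resid

variable {H : Type u} [NormedAddCommGroup H] [InnerProductSpace ℂ H] [CompleteSpace H]
  {M : VonNeumannAlgebra H}

lemma continuous_central {z : H →L[ℂ] H}
    (hfd : FiniteDimensional ℂ (Submodule.span ℂ {y : H →L[ℂ] H | ∃ x ∈ M, y = z * x})) :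
    Continuous (fun x : Ball M => z * x.1) := by
  set E := Submodule.span ℂ {y : H →L[ℂ] H | ∃ x ∈ M, y = z * x} with hE
  let e : (H →WOT[ℂ] H) ≃ₗ[ℂ] (H →L[ℂ] H) := ContinuousLinearMapWOT.linearEquiv ℂ
  let E' : Submodule ℂ (H →WOT[ℂ] H) := E.comap e.toLinearMap
  have hfd' : FiniteDimensional ℂ E' := by
    have h1 : Function.Injective (e.toLinearMap.restrict (p := E') (q := E) fun x hx => hx) := by
      intro x y h
      apply Subtype.ext
      apply e.injective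
      exact congrArg Subtype.val h
    exact FiniteDimensional.of_injective _ h1
  let g : E' →ₗ[ℂ] (H →L[ℂ] H) := e.toLinearMap.comp E'.subtype
  have hg : Continuous g := LinearMap.continuous_of_finiteDimensional g
  let f : Ball M → E' := fun x => ⟨e.symm (z * x.1), by
    show e (e.symm (z * x.1)) ∈ E
    rw [LinearEquiv.apply_symm_apply]
    exact Submodule.subset_span ⟨x.1, x.2.1, rfl⟩⟩
  have hf : Continuous f := by
    apply Continuous.subtype_mk
    apply ContinuousLinearMapWOT.continuous_of_dual_apply_continuous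
    intro ξ y
    have h1 : (fun x : Ball M => y ((e.symm (z * x.1)) ξ)) = fun x : Ball M =>
        ⟪star z ((InnerProductSpace.toDual ℂ H).symm y), x.1 ξ⟫_ℂ := by
      funext x
      rw [inner_star_left, InnerProductSpace.toDual_symm_apply]
      rfl
    rw [h1]
    exact continuous_coef _ _
  have h2 : (fun x : Ball M => z * x.1) = g ∘ f := by
    funext x
    show z * x.1 = e (e.symm (z * x.1))
    rw [LinearEquiv.apply_symm_apply]
  rw [h2]
  exact hg.comp hf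

/-- property (R) excludes finite-dimensional direct summands -/
theorem PropertyR.noFinite (h : PropertyR M) : NoFiniteSummand M := by
  intro z hz hzp _ hfd
  by_contra hz0
  have hc := continuous_central hfd
  have hd : Dense {x : Ball M | ¬ (star x.1 * x.1 = 1 ∧ x.1 * star x.1 = 1)}ᶜ :=
    dense_of_mem_residual h
  have hW : IsOpen {x : Ball M | ‖z * x.1‖ < 1 / 2} := isOpen_lt hc.norm continuous_const
  obtain ⟨x, hx1, hx2⟩ := hd.inter_open_nonempty _ hW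
    ⟨⟨0, zero_mem M, by rw [norm_zero]; exact zero_le_one⟩, by
      show ‖z * 0‖ < 1 / 2
      rw [mul_zero, norm_zero]; norm_num⟩
  have hx3 : star x.1 * x.1 = 1 ∧ x.1 * star x.1 = 1 := not_not.1 hx2
  have hzn : ‖z‖ = 1 := by
    have h1 : ‖star z * z‖ = ‖z‖ * ‖z‖ := CStarRing.norm_star_mul_self
    rw [proj_star hzp, proj_mul_self hzp] at h1
    have h2 : ‖z‖ ≠ 0 := norm_ne_zero_iff.2 hz0
    exact (mul_left_cancel₀ h2 (by rw [mul_one]; exact h1)).symm
  have h4 : ‖z‖ ≤ ‖z * x.1‖ := by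
    calc ‖z‖ = ‖(z * x.1) * star x.1‖ := by rw [mul_assoc, hx3.2, mul_one]
      _ ≤ ‖z * x.1‖ * ‖star x.1‖ := norm_mul_le _ _
      _ ≤ ‖z * x.1‖ * 1 := by
          apply mul_le_mul_of_nonneg_left _ (norm_nonneg _)
          rw [norm_star]; exact x.2.2
      _ = _ := mul_one _
  have h5 : ‖z * x.1‖ < 1 / 2 := hx1
  linarith

/-- data of a basic closed neighbourhood -/
def Dat (M : VonNeumannAlgebra H) : Type u := {s : Ball M × Finset H × ℝ // 0 < s.2.2}

/-- basic closed neighbourhood -/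
def Cl (s : Dat M) : Set (Ball M) :=
  {y : Ball M | ∀ ξ ∈ s.1.2.1, ∀ η ∈ s.1.2.1, ‖⟪η, (y.1 - s.1.1.1) ξ⟫_ℂ‖ ≤ s.1.2.2}

lemma Cl_closed (s : Dat M) : IsClosed (Cl s) := isClosed_basic _ _ _

lemma Cl_nonempty (s : Dat M) : (Cl s).Nonempty := by
  refine ⟨s.1.1, ?_⟩
  intro ξ _ η _
  rw [sub_self]
  show ‖⟪η, (0 : H)⟫_ℂ‖ ≤ _
  rw [inner_zero_right, norm_zero]
  exact s.2.le

lemma Cl_step {U : Set (Ball M)} (hU : IsOpen U) (hd : Dense U) (s : Dat M) :
    ∃ s' : Dat M, Cl s' ⊆ Cl s ∩ U := by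
  have h1 : IsOpen {y : Ball M | ∀ ξ ∈ s.1.2.1, ∀ η ∈ s.1.2.1,
      ‖⟪η, (y.1 - s.1.1.1) ξ⟫_ℂ‖ < s.1.2.2} := isOpen_basic _ _ _
  obtain ⟨x, hx, hxU⟩ := hd.inter_open_nonempty _ h1 ⟨s.1.1, by
    intro ξ _ η _
    rw [sub_self]
    show ‖⟪η, (0 : H)⟫_ℂ‖ < _
    rw [inner_zero_right, norm_zero]
    exact s.2⟩
  obtain ⟨F, ε, hε, hb⟩ := exists_basic (h1.inter hU) ⟨hx, hxU⟩
  refine ⟨⟨(x, F, ε), hε⟩, ?_⟩
  intro y hy
  have h2 := hb y hy
  exact ⟨fun ξ hξ η hη => (h2.1 ξ hξ η hη).le, h2.2⟩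

lemma sum_proj {G : Finset (H →L[ℂ] H)} (hG : ∀ p ∈ G, IsStarProjection p)
    (ho : ∀ p ∈ G, ∀ q ∈ G, p ≠ q → p * q = 0) : IsStarProjection (∑ p ∈ G, p) := by
  classical
  refine ⟨?_, ?_⟩
  · show (∑ p ∈ G, p) * (∑ p ∈ G, p) = ∑ p ∈ G, p
    rw [Finset.mul_sum]
    apply Finset.sum_congr rfl
    intro q hq
    rw [Finset.sum_mul, Finset.sum_eq_single q]
    · exact proj_mul_self (hG q hq)
    · intro p hp hpq
      exact ho p hp q hq hpq
    · intro hn
      exact absurd hq hn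
  · show star _ = _
    rw [star_sum]
    exact Finset.sum_congr rfl fun p hp => proj_star (hG p hp)

lemma sum_sq_le {G : Finset (H →L[ℂ] H)} (hG : ∀ p ∈ G, IsStarProjection p)
    (ho : ∀ p ∈ G, ∀ q ∈ G, p ≠ q → p * q = 0) (ξ : H) : ∑ p ∈ G, ‖p ξ‖ ^ 2 ≤ ‖ξ‖ ^ 2 := by
  have hP := sum_proj hG ho
  have h2 : ∀ p ∈ G, ‖p ξ‖ ^ 2 = (⟪ξ, p ξ⟫_ℂ).re := by
    intro p hp
    rw [inner_proj_proj (hG p hp), inner_self_eq_norm_sq_to_K]
    exact (Complex.ofReal_re (‖p ξ‖ ^ 2) ▸ by push_cast; rfl)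
  rw [Finset.sum_congr rfl h2, ← Complex.re_sum, ← inner_sum]
  have h3 : ∑ p ∈ G, p ξ = (∑ p ∈ G, p) ξ := by rw [sum_apply]
  rw [h3]
  have h4 := norm_proj_apply_le hP ξ
  calc _ ≤ ‖⟪ξ, (∑ p ∈ G, p) ξ⟫_ℂ‖ := Complex.re_le_norm _
    _ ≤ ‖ξ‖ * ‖ξ‖ := (norm_inner_le_norm _ _).trans
        (mul_le_mul_of_nonneg_left h4 (norm_nonneg _))
    _ = ‖ξ‖ ^ 2 := by ring

lemma countable_nonzero {S : Set (H →L[ℂ] H)} (hS : ∀ p ∈ S, IsStarProjection p)
    (ho : ∀ p ∈ S, ∀ q ∈ S, p ≠ q → p * q = 0) (ξ : H) : {p ∈ S | p ξ ≠ 0}.Countable := by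
  classical
  have h1 : Summable (fun p : S => ‖p.1 ξ‖ ^ 2) := by
    apply summable_of_sum_le (c := ‖ξ‖ ^ 2)
    · intro p; exact sq_nonneg _
    · intro G
      have h2 : ∑ p ∈ G, ‖p.1 ξ‖ ^ 2 = ∑ p ∈ G.image Subtype.val, ‖p ξ‖ ^ 2 := by
        rw [Finset.sum_image]
        intro a _ b _ hab
        exact Subtype.ext hab
      rw [h2]
      apply sum_sq_le
      · intro p hp
        obtain ⟨q, _, rfl⟩ := Finset.mem_image.1 hp
        exact hS _ q.2
      · intro p hp q hq hpq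
        obtain ⟨p, _, rfl⟩ := Finset.mem_image.1 hp
        obtain ⟨q, _, rfl⟩ := Finset.mem_image.1 hq
        exact ho _ p.2 _ q.2 hpq
  have h3 := h1.countable_support
  have h4 : {p ∈ S | p ξ ≠ 0} = Subtype.val '' (Function.support fun p : S => ‖p.1 ξ‖ ^ 2) := by
    ext p
    simp only [Set.mem_ofPred_eq, Set.mem_image, Function.mem_support, Subtype.exists,
      exists_and_right, exists_eq_right]
    constructor
    · rintro ⟨hp, hp2⟩
      exact ⟨hp, by simpa using hp2⟩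
    · rintro ⟨hp, hp2⟩
      exact ⟨hp, by simpa using hp2⟩
  rw [h4]
  exact h3.image _

/-- property (R) implies sigma-finiteness -/
theorem PropertyR.sigmaFinite (h : PropertyR M) : SigmaFinite M := by
  classical
  intro S hS ho
  by_contra hSc
  obtain ⟨T, hT1, hT2, hT3, hT4⟩ := mem_residual_iff.1 h
  -- enumerate the open dense sets
  obtain ⟨U, hU⟩ : ∃ U : ℕ → Set (Ball M), insert Set.univ T = Set.range U :=
    (hT3.insert _).exists_eq_range (Set.insert_nonempty _ _)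
  have hUo : ∀ n, IsOpen (U n) := by
    intro n
    have h1 : U n ∈ insert Set.univ T := hU ▸ Set.mem_range_self n
    rcases h1 with h1 | h1
    · rw [h1]; exact isOpen_univ
    · exact hT1 _ h1
  have hUd : ∀ n, Dense (U n) := by
    intro n
    have h1 : U n ∈ insert Set.univ T := hU ▸ Set.mem_range_self n
    rcases h1 with h1 | h1
    · rw [h1]; exact dense_univ
    · exact hT2 _ h1
  choose next hnext using fun (n : ℕ) (s : Dat M) => Cl_step (hUo n) (hUd n) s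
  let s0 : Dat M := ⟨(⟨0, zero_mem M, by rw [norm_zero]; exact zero_le_one⟩, ∅, 1), one_pos⟩
  let sq : ℕ → Dat M := fun n => Nat.rec s0 (fun n s => next n s) n
  have hsq : ∀ n, Cl (sq (n + 1)) ⊆ Cl (sq n) ∩ U n := fun n => hnext n (sq n)
  obtain ⟨y, hy⟩ : (⋂ n, Cl (sq n)).Nonempty :=
    IsCompact.nonempty_iInter_of_sequence_nonempty_isCompact_isClosed _
      (fun n => (hsq n).trans Set.inter_subset_left) (fun n => Cl_nonempty _)
      (Cl_closed _).isCompact (fun n => Cl_closed _)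
  rw [Set.mem_iInter] at hy
  -- the countable set of vectors
  have hbad : (⋃ n, ⋃ ξ ∈ (sq n).1.2.1, {p ∈ S | p ξ ≠ 0}).Countable := by
    apply Set.countable_iUnion
    intro n
    exact (Finset.countable_toSet _).biUnion fun ξ _ =>
      countable_nonzero (fun p hp => (hS p hp).2.1) ho ξ
  obtain ⟨p, hpS, hp⟩ : ∃ p ∈ S, p ∉ ⋃ n, ⋃ ξ ∈ (sq n).1.2.1, {p ∈ S | p ξ ≠ 0} := by
    by_contra hc
    push Not at hc
    exact hSc (hbad.mono hc)
  obtain ⟨hpM, hpp, hp0⟩ := hS p hpS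
  have hpz : ∀ n, ∀ ξ ∈ (sq n).1.2.1, p ξ = 0 := by
    intro n ξ hξ
    by_contra hne
    apply hp
    simp only [Set.mem_iUnion]
    exact ⟨n, ξ, hξ, hpS, hne⟩
  have hr : IsStarProjection (1 - p) := hpp.one_sub
  have hrn : ‖(1 - p : H →L[ℂ] H)‖ ≤ 1 := by
    apply ContinuousLinearMap.opNorm_le_bound _ zero_le_one
    intro ξ
    rw [one_mul]
    exact norm_proj_apply_le hr ξ
  let y' : Ball M := ⟨(1 - p) * y.1 * (1 - p),
    mul_mem (mul_mem (sub_mem (one_mem M) hpM) y.2.1) (sub_mem (one_mem M) hpM), by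
      calc ‖(1 - p) * y.1 * (1 - p)‖ ≤ ‖(1 - p) * y.1‖ * ‖(1 - p : H →L[ℂ] H)‖ := norm_mul_le _ _
        _ ≤ (‖(1 - p : H →L[ℂ] H)‖ * ‖y.1‖) * ‖(1 - p : H →L[ℂ] H)‖ :=
            mul_le_mul_of_nonneg_right (norm_mul_le _ _) (norm_nonneg _)
        _ ≤ (1 * 1) * 1 := by
            apply mul_le_mul _ hrn (norm_nonneg _) (by norm_num)
            exact mul_le_mul hrn y.2.2 (norm_nonneg _) zero_le_one
        _ = 1 := by norm_num⟩
  have hy' : ∀ n, y' ∈ Cl (sq n) := by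
    intro n ξ hξ η hη
    have h1 := hy n ξ hξ η hη
    have e1 : ⟪η, (y'.1 - (sq n).1.1.1) ξ⟫_ℂ = ⟪η, (y.1 - (sq n).1.1.1) ξ⟫_ℂ := by
      have e2 : (1 - p) ξ = ξ := by
        show ξ - p ξ = ξ
        rw [hpz n ξ hξ, sub_zero]
      have e3 : (1 - p) η = η := by
        show η - p η = η
        rw [hpz n η hη, sub_zero]
      have e4 : ⟪η, y'.1 ξ⟫_ℂ = ⟪η, y.1 ξ⟫_ℂ := by
        show ⟪η, (1 - p) (y.1 ((1 - p) ξ))⟫_ℂ = _
        rw [← inner_proj hr, e2, e3]
      have e5 : ∀ T : H →L[ℂ] H, ⟪η, (T - (sq n).1.1.1) ξ⟫_ℂ = ⟪η, T ξ⟫_ℂ - ⟪η, (sq n).1.1.1 ξ⟫_ℂ := by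
        intro T
        rw [← inner_sub_right]; rfl
      rw [e5, e5, e4]
    rw [e1]
    exact h1
  have hyU : y' ∈ ⋂₀ T := by
    intro t ht
    have h1 : t ∈ Set.range U := hU ▸ Set.mem_insert_of_mem _ ht
    obtain ⟨n, rfl⟩ := h1
    exact (hsq n (hy' (n + 1))).2
  have hun : star y'.1 * y'.1 = 1 ∧ y'.1 * star y'.1 = 1 := not_not.1 (hT4 hyU)
  have h2 : y'.1 * p = 0 := by
    have h3 : (1 - p) * p = 0 := by rw [sub_mul, one_mul, proj_mul_self hpp, sub_self]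
    show (1 - p) * y.1 * (1 - p) * p = 0
    rw [mul_assoc, h3, mul_zero]
  apply hp0
  calc p = (star y'.1 * y'.1) * p := by rw [hun.1, one_mul]
    _ = 0 := by rw [mul_assoc, h2, mul_zero]

/-- The characterization of von Neumann algebras whose unitaries are residual in the unit ball. -/
theorem propertyR_iff (M : VonNeumannAlgebra H) :
    PropertyR M ↔ SigmaFinite M ∧ NoFiniteSummand M :=
  ⟨fun h => ⟨h.sigmaFinite, h.noFinite⟩, fun h => propertyR_of h.1 h.2⟩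

end Pool.Agent.Helper97.Resid
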